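import Mathlib

/-!
PK-ASY, the probabilistic part: if `π` is a probability on `ℕ` with mean `1`, finite second moment and
`π 0 > 0`, then the coefficients of the powers of its generating function satisfy the central
limit theorem at the mean.
-/

set_option autoImplicit false

open MeasureTheory ProbabilityTheory Filter Topology
open scoped ENNReal NNReal

namespace R47.PK

namespace Clt

/-- PMF from a real sequence. -/
noncomputable def pmf (π : ℕ → ℝ) (h0 : ∀ k, 0 ≤ π k) (h1 : HasSum π 1) : PMF ℕ :=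
  ⟨fun k => ENNReal.ofReal (π k), ENNReal.summable.hasSum_iff.2 (by
    rw [← ENNReal.ofReal_tsum_of_nonneg h0 h1.summable, h1.tsum_eq, ENNReal.ofReal_one])⟩

theorem pmf_apply (π : ℕ → ℝ) (h0 : ∀ k, 0 ≤ π k) (h1 : HasSum π 1) (k : ℕ) :
    (pmf π h0 h1) k = ENNReal.ofReal (π k) := rfl

theorem integrable_pmf (π : ℕ → ℝ) (h0 : ∀ k, 0 ≤ π k) (h1 : HasSum π 1) (f : ℕ → ℝ)
    (hf : Summable fun k => |f k| * π k) : Integrable f (pmf π h0 h1).toMeasure := by
  refine ⟨(measurable_of_countable f).aestronglyMeasurable, ?_⟩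
  rw [hasFiniteIntegral_iff_enorm, lintegral_countable']
  have h : ∀ k, ‖f k‖ₑ * (pmf π h0 h1).toMeasure {k} = ENNReal.ofReal (|f k| * π k) := by
    intro k
    rw [PMF.toMeasure_apply_singleton _ _ (measurableSet_singleton k), pmf_apply,
      ENNReal.ofReal_mul (abs_nonneg _), Real.enorm_eq_ofReal_abs]
  simp_rw [h]
  rw [← ENNReal.ofReal_tsum_of_nonneg (fun k => mul_nonneg (abs_nonneg _) (h0 k)) hf]
  exact ENNReal.ofReal_lt_top

theorem integral_pmf (π : ℕ → ℝ) (h0 : ∀ k, 0 ≤ π k) (h1 : HasSum π 1) (f : ℕ → ℝ)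
    (hf : Summable fun k => |f k| * π k) :
    ∫ k, f k ∂(pmf π h0 h1).toMeasure = ∑' k, f k * π k := by
  rw [PMF.integral_eq_tsum _ _ (integrable_pmf π h0 h1 f hf)]
  refine tsum_congr fun k => ?_
  rw [pmf_apply, ENNReal.toReal_ofReal (h0 k), smul_eq_mul, mul_comm]

theorem law_sum {Ω : Type} [MeasurableSpace Ω] {P : Measure Ω} [IsProbabilityMeasure P]
    (X : ℕ → Ω → ℕ) (hm : ∀ i, Measurable (X i)) (hind : iIndepFun X P) (π : ℕ → ℝ)
    (hπ : ∀ i j, P.real {ω | X i ω = j} = π j) (N : ℕ) : ∀ j : ℕ,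
    P.real {ω | ∑ i ∈ Finset.range N, X i ω = j} =
      PowerSeries.coeff j ((PowerSeries.mk π) ^ N) := by
  induction N with
  | zero =>
    intro j
    rw [pow_zero, PowerSeries.coeff_one]
    simp only [Finset.range_zero, Finset.sum_empty]
    by_cases hj : j = 0
    · subst hj; simp
    · rw [if_neg hj]
      have : {ω : Ω | 0 = j} = ∅ := by
        ext ω; simp; exact fun h => hj h.symm
      rw [this]; simp
  | succ N ih =>
    intro j
    have hmS : Measurable (fun ω => ∑ i ∈ Finset.range N, X i ω) :=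
      Finset.measurable_sum _ fun i _ => hm i
    have hset : {ω | ∑ i ∈ Finset.range (N + 1), X i ω = j} =
        ⋃ p ∈ Finset.HasAntidiagonal.antidiagonal j, ({ω | ∑ i ∈ Finset.range N, X i ω = p.1} ∩
          {ω | X N ω = p.2}) := by
      ext ω
      simp only [Set.mem_ofPred_eq, Set.mem_iUnion, Finset.HasAntidiagonal.mem_antidiagonal, Set.mem_inter_iff,
        Finset.sum_range_succ]
      constructor
      · intro h
        exact ⟨(∑ i ∈ Finset.range N, X i ω, X N ω), h, rfl, rfl⟩
      · rintro ⟨p, h, h1, h2⟩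
        rw [h1, h2]; exact h
    have hmeas : ∀ p : ℕ × ℕ, MeasurableSet ({ω | ∑ i ∈ Finset.range N, X i ω = p.1} ∩
        {ω | X N ω = p.2}) := fun p =>
      (hmS (measurableSet_singleton p.1)).inter (hm N (measurableSet_singleton p.2))
    rw [hset, measureReal_biUnion_finset]
    · rw [pow_succ, PowerSeries.coeff_mul]
      refine Finset.sum_congr rfl fun p _ => ?_
      rw [PowerSeries.coeff_mk, ← ih p.1, ← hπ N p.2]
      have hI : IndepFun (∑ i ∈ Finset.range N, X i) (X N) P :=
        hind.indepFun_finsetSum_of_notMem hm (by simp)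
      have h2 := hI.measure_inter_preimage_eq_mul {p.1} {p.2} (measurableSet_singleton _)
        (measurableSet_singleton _)
      have h3 : (∑ i ∈ Finset.range N, X i) ⁻¹' {p.1} =
          {ω | ∑ i ∈ Finset.range N, X i ω = p.1} := by
        ext ω; simp [Finset.sum_apply]
      have h4 : X N ⁻¹' {p.2} = {ω | X N ω = p.2} := by
        ext ω; simp
      rw [h3, h4] at h2
      rw [measureReal_def, h2, ENNReal.toReal_mul]
      rfl
    · intro p _ q _ hpq
      rw [Function.onFun, Set.disjoint_left]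
      rintro ω ⟨h1, h2⟩ ⟨h3, h4⟩
      exact hpq (Prod.ext (h1.symm.trans h3) (h2.symm.trans h4))
    · intro p _
      exact hmeas p

theorem gauss_half {v : ℝ≥0} (hv : v ≠ 0) : gaussianReal 0 v (Set.Iic 0) = ENNReal.ofReal (1 / 2) := by
  have hna : NullSingletonClass (gaussianReal 0 v) := nullSingletonClass_gaussianReal hv
  have h1 : gaussianReal 0 v (Set.Ici 0) = gaussianReal 0 v (Set.Iic 0) := by
    have h := gaussianReal_map_neg (μ := 0) (v := v)
    rw [neg_zero] at h
    conv_lhs => rw [← h]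
    rw [Measure.map_apply measurable_neg measurableSet_Ici]
    congr 1
    ext x; simp
  have h2 : gaussianReal 0 v (Set.Iic 0) + gaussianReal 0 v (Set.Ici 0) = 1 := by
    have h3 : gaussianReal 0 v (Set.Ici (0 : ℝ)) = gaussianReal 0 v (Set.Ioi (0 : ℝ)) :=
      measure_congr Ioi_ae_eq_Ici.symm
    rw [h3, ← measure_union (by
      rw [Set.disjoint_left]
      intro x hx hx'
      exact absurd (Set.mem_Ioi.1 hx') (not_lt.2 (Set.mem_Iic.1 hx))) measurableSet_Ioi, Set.Iic_union_Ioi]
    exact measure_univ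
  rw [h1, ← two_mul] at h2
  have h4 : gaussianReal 0 v (Set.Iic 0) = 2⁻¹ := by
    rw [← ENNReal.inv_mul_cancel_left (a := 2) (b := gaussianReal 0 v (Set.Iic 0)) (by simp) (by simp),
      h2, mul_one]
  rw [h4, one_div, ENNReal.ofReal_inv_of_pos (by norm_num)]
  simp

theorem clt (π : ℕ → ℝ) (h0 : ∀ k, 0 ≤ π k) (h1 : HasSum π 1)
    (hmean : HasSum (fun k : ℕ => (k : ℝ) * π k) 1)
    (h2 : Summable (fun k : ℕ => (k : ℝ) ^ 2 * π k)) (hpos : 0 < π 0) :
    Tendsto (fun N : ℕ => ∑ j ∈ Finset.range (N + 1),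
      PowerSeries.coeff j ((PowerSeries.mk π) ^ N)) atTop (𝓝 (1 / 2)) ∧
    ∀ k : ℕ, Tendsto (fun N : ℕ => PowerSeries.coeff (N - k) ((PowerSeries.mk π) ^ N))
      atTop (𝓝 0) := by
  obtain ⟨Ω, mΩ, P, X, hXm, hXlaw, hind, hP⟩ := exists_iid ℕ (pmf π h0 h1).toMeasure
  have hπ : ∀ i j, P.real {ω | X i ω = j} = π j := by
    intro i j
    have h3 : P {ω | X i ω = j} = P.map (X i) {j} := by
      rw [Measure.map_apply (hXm i) (measurableSet_singleton j)]
      congr 1
    rw [measureReal_def, h3, (hXlaw i).map_eq,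
      PMF.toMeasure_apply_singleton _ _ (measurableSet_singleton j), pmf_apply,
      ENNReal.toReal_ofReal (h0 j)]
  have hlaw := law_sum X hXm hind π hπ
  -- the real variables
  have hcast : Measurable (fun n : ℕ => (n : ℝ)) := measurable_of_countable _
  have hident : ∀ i : ℕ, IdentDistrib (fun ω => (X i ω : ℝ)) (fun ω => (X 0 ω : ℝ)) P P := by
    intro i
    have h3 : IdentDistrib (X i) (X 0) P P :=
      ⟨(hXm i).aemeasurable, (hXm 0).aemeasurable, by rw [(hXlaw i).map_eq, (hXlaw 0).map_eq]⟩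
    exact h3.comp (u := fun n : ℕ => (n : ℝ)) hcast
  have hindY : iIndepFun (fun i ω => (X i ω : ℝ)) P :=
    hind.comp (fun _ n => (n : ℝ)) (fun _ => hcast)
  have hs1 : Summable fun k : ℕ => |(k : ℝ)| * π k := by
    simpa only [Nat.abs_cast] using hmean.summable
  have hs2 : Summable fun k : ℕ => |(k : ℝ) ^ 2| * π k := by
    simpa only [abs_pow, Nat.abs_cast] using h2
  have hEY : ∫ ω, (X 0 ω : ℝ) ∂P = 1 := by
    have h3 := integral_map (μ := P) (φ := X 0) (hXm 0).aemeasurable
      (f := fun n : ℕ => (n : ℝ)) hcast.aestronglyMeasurable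
    rw [← h3, (hXlaw 0).map_eq, integral_pmf π h0 h1 _ hs1]
    exact hmean.tsum_eq
  have hLp : MemLp (fun ω => (X 0 ω : ℝ)) 2 P := by
    have hm0 : AEStronglyMeasurable (fun ω => (X 0 ω : ℝ)) P :=
      (hcast.comp (hXm 0)).aestronglyMeasurable
    rw [memLp_two_iff_integrable_sq hm0]
    have h3 := integrable_pmf π h0 h1 (fun n : ℕ => (n : ℝ) ^ 2) hs2
    rw [← (hXlaw 0).map_eq, integrable_map_measure
      (measurable_of_countable _).aestronglyMeasurable (hXm 0).aemeasurable] at h3
    exact h3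
  have hvar : Var[fun ω => (X 0 ω : ℝ); P] ≠ 0 := by
    intro hv
    have h3 := ae_eq_integral_of_variance_eq_zero hLp hv
    rw [hEY] at h3
    have h4 : P {ω | X 0 ω = 0} = 0 := by
      refine measure_mono_null ?_ h3
      intro ω hω hω'
      have e1 : X 0 ω = 0 := hω
      have e2 : (X 0 ω : ℝ) = 1 := hω'
      rw [e1] at e2
      norm_num at e2
    have h5 := hπ 0 0
    rw [measureReal_def, h4, ENNReal.toReal_zero] at h5
    linarith
  obtain ⟨v, hv⟩ : ∃ v : ℝ≥0, v = Var[fun ω => (X 0 ω : ℝ); P].toNNReal := ⟨_, rfl⟩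
  have hv0 : v ≠ 0 := by
    rw [hv, Ne, Real.toNNReal_eq_zero, not_le]
    exact lt_of_le_of_ne (variance_nonneg _ _) (Ne.symm hvar)
  have hna : NullSingletonClass (gaussianReal 0 v) := nullSingletonClass_gaussianReal hv0
  have hCLT := tendstoInDistribution_inv_sqrt_mul_sum_sub (P := P)
    (X := fun i ω => (X i ω : ℝ)) (P' := gaussianReal 0 v) (Y := id)
    (by rw [← hv]; exact HasLaw.id) hLp hindY hident
  have hport : ∀ E : Set ℝ, MeasurableSet E → gaussianReal 0 v (frontier E) = 0 →
      Tendsto (fun N : ℕ => P {ω | (√(N : ℝ))⁻¹ * (∑ k ∈ Finset.range N, (X k ω : ℝ) - N) ∈ E})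
        atTop (𝓝 (gaussianReal 0 v E)) := by
    intro E hE hfr
    have h3 := ProbabilityMeasure.tendsto_measure_of_null_frontier_of_tendsto' hCLT.tendsto
      (E := E) (by
        show (gaussianReal 0 v).map id (frontier E) = 0
        rw [Measure.map_id]; exact hfr)
    have h4 : Tendsto (fun N : ℕ => P.map (fun ω => (√(N : ℝ))⁻¹ *
        (∑ k ∈ Finset.range N, (X k ω : ℝ) - N * ∫ ω, (X 0 ω : ℝ) ∂P)) E) atTop
        (𝓝 ((gaussianReal 0 v).map id E)) := h3
    rw [Measure.map_id] at h4
    refine h4.congr fun N => ?_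
    rw [Measure.map_apply ?_ hE]
    · rw [hEY]
      simp only [mul_one]
      rfl
    · have : Measurable fun ω => ∑ k ∈ Finset.range N, (X k ω : ℝ) :=
        Finset.measurable_sum _ fun i _ => hcast.comp (hXm i)
      fun_prop
  constructor
  · have h3 := hport (Set.Iic 0) measurableSet_Iic (by
      rw [frontier_Iic]; exact measure_singleton _)
    rw [gauss_half hv0] at h3
    have h4 := (ENNReal.tendsto_toReal ENNReal.ofReal_ne_top).comp h3
    rw [ENNReal.toReal_ofReal (by norm_num)] at h4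
    refine h4.congr' ?_
    filter_upwards [eventually_gt_atTop 0] with N hN
    have hN' : (0 : ℝ) < √(N : ℝ) := Real.sqrt_pos.2 (by exact_mod_cast hN)
    have h5 : {ω | (√(N : ℝ))⁻¹ * (∑ k ∈ Finset.range N, (X k ω : ℝ) - N) ∈ Set.Iic (0 : ℝ)} =
        ⋃ j ∈ Finset.range (N + 1), {ω | ∑ k ∈ Finset.range N, X k ω = j} := by
      ext ω
      simp only [Set.mem_ofPred_eq, Set.mem_Iic, Set.mem_iUnion, Finset.mem_range]
      rw [← Nat.cast_sum]
      constructor
      · intro h6
        refine ⟨_, ?_, rfl⟩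
        have h7 : ((∑ k ∈ Finset.range N, X k ω : ℕ) : ℝ) - N ≤ 0 := by
          by_contra h8
          rw [not_le] at h8
          have := mul_pos (inv_pos.2 hN') h8
          linarith
        have h8 : ((∑ k ∈ Finset.range N, X k ω : ℕ) : ℝ) ≤ N := by linarith
        have h9 : (∑ k ∈ Finset.range N, X k ω : ℕ) ≤ N := by exact_mod_cast h8
        omega
      · rintro ⟨j, hj, h6⟩
        rw [h6]
        have h7 : (j : ℝ) ≤ N := by exact_mod_cast Nat.lt_succ_iff.1 hj
        exact mul_nonpos_of_nonneg_of_nonpos (inv_nonneg.2 hN'.le) (by linarith)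
    show (P _).toReal = _
    rw [h5, ← measureReal_def, measureReal_biUnion_finset]
    · exact Finset.sum_congr rfl fun j _ => hlaw N j
    · intro a _ b _ hab
      rw [Function.onFun, Set.disjoint_left]
      intro ω h6 h7
      exact hab (h6.symm.trans h7)
    · intro j _
      have hmS : Measurable (fun ω => ∑ i ∈ Finset.range N, X i ω) :=
        Finset.measurable_sum _ fun i _ => hXm i
      exact hmS (measurableSet_singleton j)
  · intro k
    rw [Metric.tendsto_atTop']
    intro δ hδ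
    -- a small interval
    have h3 := tendsto_measure_Icc (gaussianReal 0 v) (0 : ℝ)
    have h4 := h3.eventually_lt_const (u := ENNReal.ofReal δ) (ENNReal.ofReal_pos.2 hδ)
    rw [Metric.eventually_nhds_iff] at h4
    obtain ⟨r, hr, h4⟩ := h4
    have h5 : gaussianReal 0 v (Set.Icc (0 - r / 2) (0 + r / 2)) < ENNReal.ofReal δ := by
      apply h4
      rw [Real.dist_eq, sub_zero, abs_of_pos (by positivity)]
      linarith
    have h6 := hport (Set.Icc (0 - r / 2) (0 + r / 2)) measurableSet_Icc (by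
      rw [frontier_Icc (by linarith)]
      exact Set.Finite.measure_zero (Set.toFinite _) _)
    have h7 := h6.eventually_lt_const h5
    have h8 : Tendsto (fun N : ℕ => (√(N : ℝ))⁻¹ * k) atTop (𝓝 (0 * k)) :=
      (tendsto_inv_atTop_zero.comp (Real.tendsto_sqrt_atTop.comp
        tendsto_natCast_atTop_atTop)).mul_const _
    rw [zero_mul] at h8
    have h9 := h8.eventually_lt_const (show 0 < r / 2 by positivity)
    obtain ⟨M, hM⟩ := (h7.and (h9.and (eventually_ge_atTop k))).exists_forall_of_atTop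
    refine ⟨M, fun N hN => ?_⟩
    obtain ⟨h10, h11, h12⟩ := hM N hN.le
    rw [← hlaw N (N - k), Real.dist_eq, sub_zero, abs_of_nonneg measureReal_nonneg,
      measureReal_def]
    refine (ENNReal.toReal_lt_of_lt_ofReal (lt_of_le_of_lt (measure_mono ?_) h10))
    intro ω hω
    have h13 : ∑ i ∈ Finset.range N, X i ω = N - k := hω
    show _ ∈ Set.Icc _ _
    have h14 : ∑ i ∈ Finset.range N, (X i ω : ℝ) = N - k := by
      rw [← Nat.cast_sum, h13, Nat.cast_sub h12]
    rw [h14]
    have h15 : (√(N : ℝ))⁻¹ * ((N : ℝ) - k - N) = -((√(N : ℝ))⁻¹ * k) := by ring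
    rw [h15]
    have h16 : 0 ≤ (√(N : ℝ))⁻¹ * (k : ℝ) := by positivity
    constructor <;> linarith

end Clt

end R47.PK
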