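import Pool.Agent.R47.PK.AsySer
import Pool.Agent.R47.PK.AsyClt

/-!
PK-ASY (MP_9d63a4_co): the asymptotics of the coefficients.
-/

set_option autoImplicit false

namespace R47.PK
open PowerSeries Filter Topology

/-- `J₀(2√t)` as a function -/
noncomputable def Bf (t : ℝ) : ℝ := ∑' k : ℕ, (-1) ^ k * t ^ k / ((k.factorial : ℝ)) ^ 2
/-- `J₁(2√t)/√t` as a function -/
noncomputable def Pf (t : ℝ) : ℝ :=
  ∑' k : ℕ, (-1) ^ k * t ^ k / ((k.factorial : ℝ) * ((k + 1).factorial : ℝ))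

/-- PK-ASY -/
def AsyStm : Prop :=
  ∃ t0 : ℝ, 0 < t0 ∧ Bf t0 = 0 ∧ (∀ t, 0 ≤ t → t < t0 → 0 < Bf t) ∧ 0 < Pf t0 ∧
    Tendsto (fun N : ℕ => coeff N (BS⁻¹ * (PS⁻¹) ^ N) * (t0 * Pf t0) ^ (N + 1)) atTop (𝓝 (1 / 2))

namespace Ser

/-! ### the zero -/

theorem bterm_le {t : ℝ} (ht0 : 0 ≤ t) (ht : t ≤ 3 / 2) (k : ℕ) :
    |(-1) ^ k * t ^ k / ((k.factorial : ℝ)) ^ 2| ≤ (3 / 2) ^ k / (k.factorial : ℝ) := by
  rw [abs_div, abs_mul, abs_pow, abs_neg, abs_one, one_pow, one_mul, abs_of_nonneg (by positivity),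
    abs_of_nonneg (by positivity : (0 : ℝ) ≤ ((k.factorial : ℝ)) ^ 2)]
  have h1 : (1 : ℝ) ≤ k.factorial := by exact_mod_cast Nat.one_le_iff_ne_zero.2 k.factorial_ne_zero
  have h2 : (k.factorial : ℝ) ≤ (k.factorial : ℝ) ^ 2 := by nlinarith
  have h3 : t ^ k ≤ (3 / 2) ^ k := pow_le_pow_left₀ ht0 ht k
  exact div_le_div₀ (by positivity) h3 (by positivity) h2

theorem bsum {t : ℝ} (ht0 : 0 ≤ t) (ht : t ≤ 3 / 2) :
    Summable fun k : ℕ => (-1) ^ k * t ^ k / ((k.factorial : ℝ)) ^ 2 :=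
  Summable.of_norm_bounded (Real.summable_pow_div_factorial (3 / 2)) fun k => bterm_le ht0 ht k

theorem Bf_cont : ContinuousOn Bf (Set.Icc 0 (3 / 2)) := by
  unfold Bf
  refine continuousOn_tsum (u := fun k : ℕ => (3 / 2 : ℝ) ^ k / (k.factorial : ℝ)) (fun k => ?_)
    (Real.summable_pow_div_factorial (3 / 2)) fun k t ht => bterm_le ht.1 ht.2 k
  fun_prop

theorem Bf_zero : Bf 0 = 1 := by
  unfold Bf
  rw [tsum_eq_single 0]
  · norm_num
  · intro k hk
    rw [zero_pow hk]; simp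

theorem fact_ge5 (k : ℕ) : (120 : ℝ) * 2 ^ k ≤ ((k + 5).factorial : ℝ) := by
  induction k with
  | zero => norm_num [Nat.factorial]
  | succ k ih =>
    rw [show k + 1 + 5 = (k + 5) + 1 by ring, Nat.factorial_succ]
    push_cast
    have h1 : (2 : ℝ) ≤ (k : ℝ) + 5 + 1 := by
      have : (0 : ℝ) ≤ k := by positivity
      linarith
    calc (120 : ℝ) * 2 ^ (k + 1) = 2 * (120 * 2 ^ k) := by ring
      _ ≤ ((k : ℝ) + 5 + 1) * ((k + 5).factorial : ℝ) :=
          mul_le_mul h1 ih (by positivity) (by positivity)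

theorem fact_ge2 (k : ℕ) : (2 : ℝ) * 3 ^ k ≤ ((k + 2).factorial : ℝ) := by
  induction k with
  | zero => norm_num [Nat.factorial]
  | succ k ih =>
    rw [show k + 1 + 2 = (k + 2) + 1 by ring, Nat.factorial_succ]
    push_cast
    have h1 : (3 : ℝ) ≤ (k : ℝ) + 2 + 1 := by
      have : (0 : ℝ) ≤ k := by positivity
      linarith
    calc (2 : ℝ) * 3 ^ (k + 1) = 3 * (2 * 3 ^ k) := by ring
      _ ≤ ((k : ℝ) + 2 + 1) * ((k + 2).factorial : ℝ) :=
          mul_le_mul h1 ih (by positivity) (by positivity)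

theorem Bf_neg : Bf (3 / 2) < 0 := by
  have hs := bsum (t := 3 / 2) (by norm_num) le_rfl
  unfold Bf
  rw [← hs.sum_add_tsum_nat_add 5]
  have h1 : ∑ i ∈ Finset.range 5, (-1 : ℝ) ^ i * (3 / 2) ^ i / ((i.factorial : ℝ)) ^ 2 =
      1 - 3 / 2 + 9 / 16 - 3 / 32 + 9 / 1024 := by
    simp only [Finset.sum_range_succ, Finset.sum_range_zero, Nat.factorial]
    norm_num
  have h2 : ∑' k : ℕ, (-1 : ℝ) ^ (k + 5) * (3 / 2) ^ (k + 5) / (((k + 5).factorial : ℝ)) ^ 2 ≤
      ∑' k : ℕ, (3 / 2) ^ 5 / 14400 * (3 / 8 : ℝ) ^ k := by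
    refine Summable.tsum_le_tsum (fun k => ?_) ((summable_nat_add_iff 5).2 hs)
      ((summable_geometric_of_lt_one (by norm_num) (by norm_num)).mul_left _)
    refine (le_abs_self _).trans ?_
    rw [abs_div, abs_mul, abs_pow, abs_neg, abs_one, one_pow, one_mul,
      abs_of_nonneg (by positivity),
      abs_of_nonneg (by positivity : (0 : ℝ) ≤ (((k + 5).factorial : ℝ)) ^ 2)]
    have h3 := fact_ge5 k
    have h4 : (120 * 2 ^ k : ℝ) ^ 2 ≤ (((k + 5).factorial : ℝ)) ^ 2 :=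
      pow_le_pow_left₀ (by positivity) h3 2
    refine (div_le_div_of_nonneg_left (by positivity) (by positivity) h4).trans_eq ?_
    have h5 : (3 / 8 : ℝ) ^ k = (3 / 2) ^ k / (2 ^ k) ^ 2 := by
      rw [← pow_mul, mul_comm k 2, pow_mul, ← div_pow]; norm_num
    rw [h5, pow_add]
    field_simp
    ring
  rw [tsum_mul_left, tsum_geometric_of_lt_one (by norm_num) (by norm_num)] at h2
  rw [h1]
  have h3 : (3 / 2 : ℝ) ^ 5 / 14400 * (1 - 3 / 8)⁻¹ < 1 / 100 := by norm_num
  have h4 : (1 : ℝ) - 3 / 2 + 9 / 16 - 3 / 32 + 9 / 1024 < -1 / 50 := by norm_num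
  linarith

theorem exists_t0 : ∃ t0 : ℝ, 0 < t0 ∧ t0 ≤ 3 / 2 ∧ Bf t0 = 0 ∧
    ∀ t, 0 ≤ t → t < t0 → 0 < Bf t := by
  have hK : IsCompact {t | t ∈ Set.Icc (0 : ℝ) (3 / 2) ∧ Bf t = 0} := by
    have h1 : {t | t ∈ Set.Icc (0 : ℝ) (3 / 2) ∧ Bf t = 0} =
        Set.Icc (0 : ℝ) (3 / 2) ∩ Bf ⁻¹' {0} := by
      ext t; simp
    rw [h1]
    exact isCompact_Icc.of_isClosed_subset
      (Bf_cont.preimage_isClosed_of_isClosed isClosed_Icc isClosed_singleton)
      Set.inter_subset_left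
  have hne : {t | t ∈ Set.Icc (0 : ℝ) (3 / 2) ∧ Bf t = 0}.Nonempty := by
    have h1 := intermediate_value_Icc' (show (0 : ℝ) ≤ 3 / 2 by norm_num) Bf_cont
    have h2 : (0 : ℝ) ∈ Set.Icc (Bf (3 / 2)) (Bf 0) := by
      rw [Bf_zero]; exact ⟨Bf_neg.le, by norm_num⟩
    obtain ⟨t, ht, ht'⟩ := h1 h2
    exact ⟨t, ht, ht'⟩
  obtain ⟨t0, ⟨ht0, hB⟩, hleast⟩ := hK.exists_isLeast hne
  have hpos : 0 < t0 := by
    rcases ht0.1.eq_or_lt with h | h
    · rw [← h, Bf_zero] at hB
      norm_num at hB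
    · exact h
  refine ⟨t0, hpos, ht0.2, hB, fun t ht htt => ?_⟩
  by_contra hcon
  rw [not_lt] at hcon
  have h1 := intermediate_value_Icc' ht (Bf_cont.mono (Set.Icc_subset_Icc_right
    (htt.le.trans ht0.2)))
  obtain ⟨s, hs, hs'⟩ := h1 (show (0 : ℝ) ∈ Set.Icc (Bf t) (Bf 0) by
    rw [Bf_zero]; exact ⟨hcon, by norm_num⟩)
  have h2 := hleast ⟨⟨hs.1, hs.2.trans (htt.le.trans ht0.2)⟩, hs'⟩
  exact absurd h2 (not_le.2 (lt_of_le_of_lt hs.2 htt))

/-- the averaging lemma -/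
theorem toep (c : ℕ → ℝ) (hc : Tendsto c atTop (𝓝 1)) (a : ℕ → ℕ → ℝ) (ha : ∀ N j, 0 ≤ a N j)
    (hs : Tendsto (fun N => ∑ j ∈ Finset.range (N + 1), a N j) atTop (𝓝 (1 / 2)))
    (hk : ∀ k, Tendsto (fun N => a N (N - k)) atTop (𝓝 0)) :
    Tendsto (fun N => ∑ k ∈ Finset.range (N + 1), c k * a N (N - k)) atTop (𝓝 (1 / 2)) := by
  have hflip : ∀ N, ∑ k ∈ Finset.range (N + 1), a N (N - k) =
      ∑ j ∈ Finset.range (N + 1), a N j := fun N => Finset.sum_flip (fun j => a N j)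
  have h0 : Tendsto (fun N => ∑ k ∈ Finset.range (N + 1), (c k - 1) * a N (N - k)) atTop (𝓝 0) := by
    rw [Metric.tendsto_atTop']
    intro ε hε
    obtain ⟨K, hK⟩ := (Metric.tendsto_atTop.1 hc) (ε / 2) (by positivity)
    have h1 : Tendsto (fun N => ∑ k ∈ Finset.range K, |c k - 1| * a N (N - k)) atTop (𝓝 0) := by
      have := tendsto_finsetSum (Finset.range K)
        (fun k _ => (hk k).const_mul (|c k - 1|))
      simpa using this
    have h2 := h1.eventually_lt_const (show (0 : ℝ) < ε / 2 by positivity)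
    have h3 := hs.eventually_lt_const (show (1 / 2 : ℝ) < 1 by norm_num)
    obtain ⟨M, hM⟩ := (h2.and (h3.and (eventually_ge_atTop K))).exists_forall_of_atTop
    refine ⟨M, fun N hN => ?_⟩
    obtain ⟨h4, h5, h6⟩ := hM N hN.le
    rw [Real.dist_eq, sub_zero]
    have h7 : ∀ k ∈ Finset.range (N + 1), |(c k - 1) * a N (N - k)| ≤
        (if k < K then |c k - 1| * a N (N - k) else 0) + ε / 2 * a N (N - k) := by
      intro k _
      rw [abs_mul, abs_of_nonneg (ha _ _)]
      split_ifs with h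
      · have := ha N (N - k)
        have : 0 ≤ ε / 2 * a N (N - k) := by positivity
        linarith
      · rw [zero_add]
        refine mul_le_mul_of_nonneg_right ?_ (ha _ _)
        have := hK k (not_lt.1 h)
        rw [Real.dist_eq] at this
        exact this.le
    refine lt_of_le_of_lt ((Finset.abs_sum_le_sum_abs _ _).trans (Finset.sum_le_sum h7)) ?_
    rw [Finset.sum_add_distrib, ← Finset.mul_sum, hflip]
    have h8 : ∑ k ∈ Finset.range (N + 1), (if k < K then |c k - 1| * a N (N - k) else 0) ≤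
        ∑ k ∈ Finset.range K, |c k - 1| * a N (N - k) := by
      rw [← Finset.sum_filter]
      refine Finset.sum_le_sum_of_subset_of_nonneg ?_ fun k _ _ => ?_
      · intro k hk'
        rw [Finset.mem_filter] at hk'
        exact Finset.mem_range.2 hk'.2
      · exact mul_nonneg (abs_nonneg _) (ha _ _)
    have h9 : ε / 2 * ∑ j ∈ Finset.range (N + 1), a N j ≤ ε / 2 * 1 :=
      mul_le_mul_of_nonneg_left h5.le (by positivity)
    linarith
  have h1 := h0.add hs
  rw [zero_add] at h1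
  refine h1.congr fun N => ?_
  rw [← hflip, ← Finset.sum_add_distrib]
  exact Finset.sum_congr rfl fun k _ => by ring

end Ser

open Ser in
/-- PK-ASY -/
theorem asy : AsyStm := by
  obtain ⟨t0, ht0, ht32, hBf, hleast⟩ := exists_t0
  -- the rescaled series
  obtain ⟨b, hb⟩ : ∃ b, b = rescale t0 BS := ⟨_, rfl⟩
  obtain ⟨p, hp⟩ : ∃ p, p = rescale t0 PS := ⟨_, rfl⟩
  obtain ⟨q, hq⟩ : ∃ q, q = rescale t0 PS⁻¹ := ⟨_, rfl⟩
  obtain ⟨V, hV⟩ : ∃ V, V = rescale t0 BS⁻¹ := ⟨_, rfl⟩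
  have hpq : p * q = 1 := by
    rw [hp, hq, ← map_mul, PowerSeries.mul_inv_cancel _ ps_ne, map_one]
  have hbV : b * V = 1 := by
    rw [hb, hV, ← map_mul, PowerSeries.mul_inv_cancel _ bs_ne, map_one]
  have hcb : ∀ k, coeff k b = (-1) ^ k * t0 ^ k / ((k.factorial : ℝ)) ^ 2 := by
    intro k; rw [hb, coeff_rescale, BS, coeff_mk]; ring
  have hcp : ∀ k, coeff k p =
      (-1) ^ k * t0 ^ k / ((k.factorial : ℝ) * ((k + 1).factorial : ℝ)) := by
    intro k; rw [hp, coeff_rescale, PS, coeff_mk]; ring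
  have hASb : AS b := by
    unfold AS
    refine Summable.of_nonneg_of_le (fun _ => abs_nonneg _) (fun k => ?_)
      (Real.summable_pow_div_factorial (3 / 2))
    rw [hcb]; exact bterm_le ht0.le ht32 k
  have hevb : ev b = 0 := by
    rw [← hBf]; unfold ev Bf
    exact tsum_congr hcb
  have hASp : AS p := by
    unfold AS
    refine Summable.of_nonneg_of_le (fun _ => abs_nonneg _) (fun k => ?_)
      (Real.summable_pow_div_factorial (3 / 2))
    refine le_trans ?_ (bterm_le ht0.le ht32 k)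
    rw [hcp, abs_div, abs_div]
    refine div_le_div_of_nonneg_left (abs_nonneg _) (by positivity) ?_
    rw [abs_of_nonneg (by positivity), abs_of_nonneg (by positivity), sq]
    refine mul_le_mul_of_nonneg_left ?_ (by positivity)
    exact_mod_cast Nat.factorial_le (Nat.le_succ k)
  have hevp : ev p = Pf t0 := by
    unfold ev Pf
    exact tsum_congr hcp
  -- the inverse of `ψ`
  have hcq : ∀ k, 0 ≤ coeff k q ∧ coeff k q ≤ (3 / 4) ^ k := by
    intro k
    obtain ⟨h1, h2⟩ := r_bound k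
    rw [hq, coeff_rescale]
    refine ⟨by positivity, ?_⟩
    calc t0 ^ k * coeff k PS⁻¹ ≤ (3 / 2) ^ k * (1 / 2) ^ k :=
          mul_le_mul (pow_le_pow_left₀ ht0.le ht32 k) h2 h1 (by positivity)
      _ = (3 / 4) ^ k := by rw [← mul_pow]; norm_num
  have hq0 : coeff 0 q = 1 := by rw [hq, coeff_rescale, r_zero]; norm_num
  have hASq : AS q := by
    unfold AS
    refine Summable.of_nonneg_of_le (fun _ => abs_nonneg _) (fun k => ?_)
      (summable_geometric_of_lt_one (r := 3 / 4) (by norm_num) (by norm_num))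
    rw [abs_of_nonneg (hcq k).1]; exact (hcq k).2
  have hev1 : ev (1 : ℝ⟦X⟧) = 1 := by
    unfold ev
    rw [tsum_eq_single 0]
    · simp
    · intro k hk; rw [coeff_one, if_neg hk]
  have hevpq : ev p * ev q = 1 := by
    rw [← (hASp.mul hASq).2, hpq, hev1]
  have hevq : 1 ≤ ev q := by
    rw [← hq0]
    exact hASq.summable.le_tsum 0 fun k _ => (hcq k).1
  obtain ⟨ψ, hψ⟩ : ∃ ψ, ψ = Pf t0 := ⟨_, rfl⟩
  rw [hevp, ← hψ] at hevpq
  have hψ0 : 0 < ψ := by
    by_contra hcon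
    rw [not_lt] at hcon
    have := mul_nonpos_of_nonpos_of_nonneg hcon (zero_le_one.trans hevq)
    linarith
  -- the probability
  obtain ⟨π, hπ⟩ : ∃ π : ℕ → ℝ, ∀ k, π k = ψ * coeff k q := ⟨_, fun _ => rfl⟩
  have hπ0 : ∀ k, 0 ≤ π k := fun k => by
    rw [hπ]; exact mul_nonneg hψ0.le (hcq k).1
  have hπ1 : HasSum π 1 := by
    have h1 := hASq.summable.hasSum.mul_left ψ
    have h2 : ψ * ∑' k, coeff k q = 1 := hevpq
    rw [h2] at h1
    have h3 : π = fun k => ψ * coeff k q := funext hπ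
    rw [h3]; exact h1
  have hkq : ∀ k : ℕ, (k : ℝ) * coeff k q = coeff k (q - b * (q * q)) := by
    intro k
    have h1 := congrArg (coeff k) (congrArg (rescale t0) mean_rel)
    rw [map_sub, map_mul (rescale t0) BS, map_mul (rescale t0) PS⁻¹, ← hb, ← hq] at h1
    rw [← h1, coeff_rescale, hq, coeff_rescale]
    rcases k with _ | k
    · rw [coeff_zero_X_mul]; simp
    · rw [coeff_succ_X_mul, coeff_derivative]; push_cast; ring
  have hASqq := hASq.mul hASq
  have hASbqq := hASb.mul hASqq.1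
  have hmean : HasSum (fun k : ℕ => (k : ℝ) * π k) 1 := by
    have h1 : Summable fun k : ℕ => (k : ℝ) * coeff k q := by
      refine (hASq.summable.sub hASbqq.1.summable).congr fun k => ?_
      rw [hkq, map_sub]
    have h2 : ∑' k : ℕ, (k : ℝ) * coeff k q = ev q := by
      have h3 : ∀ k : ℕ, (k : ℝ) * coeff k q = coeff k q - coeff k (b * (q * q)) := fun k => by
        rw [hkq, map_sub]
      rw [tsum_congr h3, hASq.summable.tsum_sub hASbqq.1.summable]
      have h4 : ∑' k, coeff k (b * (q * q)) = 0 := by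
        have := hASbqq.2
        rw [hevb, zero_mul] at this
        exact this
      rw [h4, sub_zero]
      rfl
    have h3 := h1.hasSum.mul_left ψ
    rw [h2, hevpq] at h3
    have h4 : (fun k : ℕ => (k : ℝ) * π k) = fun k : ℕ => ψ * ((k : ℝ) * coeff k q) := by
      ext k; rw [hπ]; ring
    rw [h4]
    exact h3
  have h2nd : Summable (fun k : ℕ => (k : ℝ) ^ 2 * π k) := by
    have h1 : Summable fun k : ℕ => ψ * ((k : ℝ) ^ 2 * (3 / 4 : ℝ) ^ k) :=
      (summable_pow_mul_geometric_of_norm_lt_one 2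
        (by rw [Real.norm_eq_abs, abs_of_pos] <;> norm_num)).mul_left ψ
    refine Summable.of_nonneg_of_le (fun k => mul_nonneg (by positivity) (hπ0 k))
      (fun k => ?_) h1
    rw [hπ]
    have h2 : (k : ℝ) ^ 2 * coeff k q ≤ (k : ℝ) ^ 2 * (3 / 4) ^ k :=
      mul_le_mul_of_nonneg_left (hcq k).2 (by positivity)
    have h3 := mul_le_mul_of_nonneg_left h2 hψ0.le
    linarith
  obtain ⟨hclt1, hclt2⟩ := Clt.clt π hπ0 hπ1 hmean h2nd (by rw [hπ, hq0, mul_one]; exact hψ0)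
  -- the coefficients of `1/w`
  obtain ⟨B, hB⟩ : ∃ B, B = b * PowerSeries.mk 1 := ⟨_, rfl⟩
  obtain ⟨D, hD⟩ : ∃ D, D = (1 - X) * V := ⟨_, rfl⟩
  have hone : (PowerSeries.mk 1 : ℝ⟦X⟧) * (1 - X) = 1 := mk_one_mul_one_sub_eq_one ℝ
  have hBD : B * D = 1 := by
    rw [hB, hD]
    calc b * PowerSeries.mk 1 * ((1 - X) * V) = (b * V) * (PowerSeries.mk 1 * (1 - X)) := by ring
      _ = 1 := by rw [hbV, hone, mul_one]
  have hcm : ∀ (f : ℝ⟦X⟧) (k : ℕ), coeff k (f * PowerSeries.mk 1) =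
      ∑ i ∈ Finset.range (k + 1), coeff i f := by
    intro f k
    rw [coeff_mul, Finset.Nat.sum_antidiagonal_eq_sum_range_succ_mk]
    refine Finset.sum_congr rfl fun i _ => ?_
    rw [coeff_mk]; simp
  have hcB : ∀ k, coeff k B = ∑ i ∈ Finset.range (k + 1), coeff i b := fun k => by rw [hB, hcm]
  have hB0 : coeff 0 B = 1 := by
    rw [hcB, Finset.sum_range_one, hcb]; norm_num
  have hb2 : ∀ m, |coeff (m + 2) b| ≤ 9 / 16 * (1 / 6) ^ m := by
    intro m
    rw [hcb, abs_div, abs_mul, abs_pow, abs_neg, abs_one, one_pow, one_mul,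
      abs_of_nonneg (by positivity),
      abs_of_nonneg (by positivity : (0 : ℝ) ≤ (((m + 2).factorial : ℝ)) ^ 2)]
    have h1 : t0 ^ (m + 2) ≤ (3 / 2) ^ (m + 2) := pow_le_pow_left₀ ht0.le ht32 _
    have h2 : (2 * 3 ^ m : ℝ) ^ 2 ≤ (((m + 2).factorial : ℝ)) ^ 2 :=
      pow_le_pow_left₀ (by positivity) (fact_ge2 m) 2
    refine (div_le_div₀ (by positivity) h1 (by positivity) h2).trans_eq ?_
    have h5 : (1 / 6 : ℝ) ^ m = (3 / 2) ^ m / (3 ^ m) ^ 2 := by
      rw [← pow_mul, mul_comm m 2, pow_mul, ← div_pow]; norm_num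
    rw [h5, pow_add]
    field_simp
    norm_num
  have hBb : ∀ k, |coeff (k + 1) B| ≤ 27 / 40 * (1 / 6) ^ k := by
    intro k
    have h1 := hASb.summable.sum_add_tsum_nat_add (k + 2)
    have h2 : ∑' i, coeff i b = 0 := hevb
    rw [h2] at h1
    rw [hcB, show k + 1 + 1 = k + 2 by ring]
    have h3 : ∑ i ∈ Finset.range (k + 2), coeff i b = -∑' i, coeff (i + (k + 2)) b := by linarith
    rw [h3, abs_neg]
    have h4 : ∀ i, |coeff (i + (k + 2)) b| ≤ 9 / 16 * (1 / 6) ^ k * (1 / 6) ^ i := by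
      intro i
      have := hb2 (i + k)
      rw [show i + (k + 2) = i + k + 2 by ring]
      refine this.trans_eq ?_
      rw [pow_add]; ring
    have hgs : Summable fun i : ℕ => 9 / 16 * (1 / 6 : ℝ) ^ k * (1 / 6) ^ i :=
      (summable_geometric_of_lt_one (by norm_num) (by norm_num)).mul_left _
    have h5 := tsum_of_norm_bounded (f := fun i => coeff (i + (k + 2)) b) hgs.hasSum h4
    rw [tsum_mul_left, tsum_geometric_of_lt_one (by norm_num) (by norm_num)] at h5
    rw [Real.norm_eq_abs] at h5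
    refine h5.trans_eq ?_
    norm_num
    ring
  have hDb := wiener hBD hB0 hBb
  have hASD : AS D := by
    unfold AS
    exact Summable.of_nonneg_of_le (fun _ => abs_nonneg _) hDb
      (summable_geometric_of_lt_one (by norm_num) (by norm_num))
  have hASB : AS B := by
    unfold AS
    rw [← summable_nat_add_iff 1]
    exact Summable.of_nonneg_of_le (fun _ => abs_nonneg _) hBb
      ((summable_geometric_of_lt_one (by norm_num) (by norm_num)).mul_left _)
  have hevBD : ev B * ev D = 1 := by rw [← (hASB.mul hASD).2, hBD, hev1]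
  -- the value of `ev B`
  have hevB : ev B = t0 * ψ := by
    obtain ⟨g, hg⟩ : ∃ g : ℕ → ℝ, ∀ n, g n = (n : ℝ) * coeff n B := ⟨_, fun _ => rfl⟩
    have hgs : Summable g := by
      rw [← summable_nat_add_iff 1]
      have h1 : Summable fun k : ℕ => ((k : ℝ) + 1) * (27 / 40 * (1 / 6 : ℝ) ^ k) := by
        have h2 : Summable fun k : ℕ => ((k : ℝ) ^ 1 * (1 / 6 : ℝ) ^ k) :=
          summable_pow_mul_geometric_of_norm_lt_one 1
            (by rw [Real.norm_eq_abs, abs_of_pos] <;> norm_num)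
        have h3 : Summable fun k : ℕ => (1 / 6 : ℝ) ^ k :=
          summable_geometric_of_lt_one (by norm_num) (by norm_num)
        refine ((h2.add h3).mul_left (27 / 40)).congr fun k => ?_
        ring
      refine Summable.of_norm_bounded h1 fun k => ?_
      rw [hg, Real.norm_eq_abs, abs_mul, Nat.abs_cast]
      push_cast
      exact mul_le_mul_of_nonneg_left (hBb k) (by positivity)
    have h1 : ∀ n : ℕ, -(t0 * coeff n p) = g (n + 1) - g n - coeff n B := by
      intro n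
      have h2 : coeff (n + 1) B = coeff n B + coeff (n + 1) b := by
        rw [hcB, hcB, Finset.sum_range_succ _ (n + 1)]
      rw [hg, hg, h2, hcp, hcb]
      have h3 : ((n + 1).factorial : ℝ) = (n + 1) * n.factorial := by
        rw [Nat.factorial_succ]; push_cast; ring
      rw [h3]
      push_cast
      have h4 : (n.factorial : ℝ) ≠ 0 := by positivity
      have h5 : (n : ℝ) + 1 ≠ 0 := by positivity
      field_simp
      ring
    have h2 : Summable fun n => g (n + 1) := (summable_nat_add_iff 1).2 hgs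
    have h3 : ∑' n, -(t0 * coeff n p) = ∑' n, (g (n + 1) - g n - coeff n B) := tsum_congr h1
    rw [tsum_neg, tsum_mul_left, (h2.sub hgs).tsum_sub hASB.summable, h2.tsum_sub hgs,
      hgs.tsum_eq_zero_add] at h3
    have h4 : g 0 = 0 := by rw [hg]; simp
    have h5 : ∑' n, coeff n p = ψ := by rw [hψ, ← hevp]; rfl
    have h6 : ∑' n, coeff n B = ev B := rfl
    rw [h4, h5, h6] at h3
    linarith
  -- the coefficients of `V`
  have hcV : ∀ k, coeff k V = ∑ i ∈ Finset.range (k + 1), coeff i D := by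
    intro k
    rw [← hcm, hD]
    congr 1
    calc V = V * (PowerSeries.mk 1 * (1 - X)) := by rw [hone, mul_one]
      _ = _ := by ring
  have hVlim : Tendsto (fun k => t0 * ψ * coeff k V) atTop (𝓝 1) := by
    have h1 := hASD.summable.hasSum.tendsto_sum_nat
    have h2 := (h1.comp (tendsto_add_atTop_nat 1)).const_mul (t0 * ψ)
    have h3 : t0 * ψ * ∑' i, coeff i D = 1 := by rw [← hevB]; exact hevBD
    rw [h3] at h2
    refine h2.congr fun k => ?_
    rw [hcV]; rfl
  -- nonnegativity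
  have hnn : ∀ N j, 0 ≤ coeff j ((PowerSeries.mk π) ^ N) := by
    intro N
    induction N with
    | zero => intro j; rw [pow_zero, coeff_one]; split_ifs <;> norm_num
    | succ N ih =>
      intro j
      rw [pow_succ, coeff_mul]
      exact Finset.sum_nonneg fun x _ => mul_nonneg (ih _) (by rw [coeff_mk]; exact hπ0 _)
  have hfin := toep _ hVlim (fun N j => coeff j ((PowerSeries.mk π) ^ N)) hnn hclt1 hclt2
  refine ⟨t0, ht0, hBf, hleast, hψ ▸ hψ0, ?_⟩
  rw [← hψ]
  refine hfin.congr fun N => ?_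
  have h1 : PowerSeries.mk π = C ψ * q := by
    ext k; rw [coeff_mk, coeff_C_mul, hπ]
  have h2 : t0 ^ N * coeff N (BS⁻¹ * PS⁻¹ ^ N) =
      ∑ k ∈ Finset.range (N + 1), coeff k V * coeff (N - k) (q ^ N) := by
    rw [← coeff_rescale, map_mul, map_pow, ← hV, ← hq, coeff_mul,
      Finset.Nat.sum_antidiagonal_eq_sum_range_succ_mk]
  have h3 : coeff N (BS⁻¹ * PS⁻¹ ^ N) * (t0 * ψ) ^ (N + 1) =
      (t0 ^ N * coeff N (BS⁻¹ * PS⁻¹ ^ N)) * (t0 * ψ ^ (N + 1)) := by
    rw [mul_pow]; ring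
  rw [h3, h2, Finset.sum_mul]
  refine Finset.sum_congr rfl fun k _ => ?_
  rw [h1, mul_pow, ← map_pow, coeff_C_mul]
  ring

end R47.PK
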