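import Mathlib

/-!
PK-ASY, the formal power series part.
-/

set_option autoImplicit false

namespace R47.PK
open PowerSeries Filter Topology

/-- `J₀(2√t)` as a formal power series -/
noncomputable def BS : PowerSeries ℝ := PowerSeries.mk fun k => (-1) ^ k / ((k.factorial : ℝ)) ^ 2
/-- `J₁(2√t)/√t` as a formal power series -/
noncomputable def PS : PowerSeries ℝ :=
  PowerSeries.mk fun k => (-1) ^ k / ((k.factorial : ℝ) * ((k + 1).factorial : ℝ))

namespace Ser

theorem sum_antidiag_succ (n : ℕ) (f : ℕ × ℕ → ℝ) :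
    ∑ p ∈ Finset.HasAntidiagonal.antidiagonal (n + 1), f p =
      f (0, n + 1) + ∑ p ∈ Finset.HasAntidiagonal.antidiagonal n, f (p.1 + 1, p.2) :=
  Finset.Nat.sum_antidiagonal_succ

/-! ### the differential equations -/

theorem ps_ne : constantCoeff PS ≠ 0 := by
  rw [← coeff_zero_eq_constantCoeff_apply, PS, coeff_mk]; norm_num

theorem bs_ne : constantCoeff BS ≠ 0 := by
  rw [← coeff_zero_eq_constantCoeff_apply, BS, coeff_mk]; norm_num

theorem ode1 : X * d⁄dX ℝ (d⁄dX ℝ PS) + 2 * d⁄dX ℝ PS + PS = 0 := by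
  ext n
  have h2 : (2 : ℝ⟦X⟧) = C (2 : ℝ) := (map_ofNat (C (R := ℝ)) 2).symm
  rcases n with _ | n
  · rw [map_add, map_add, h2, coeff_zero_X_mul, coeff_C_mul, coeff_derivative, PS, coeff_mk,
      coeff_mk, map_zero]
    norm_num [Nat.factorial]
  · rw [map_add, map_add, h2, coeff_succ_X_mul, coeff_C_mul, coeff_derivative, coeff_derivative,
      PS, coeff_mk, coeff_mk, map_zero]
    have h1 : ((n + 1).factorial : ℝ) ≠ 0 := by positivity
    have h3 : ((n + 1 + 1).factorial : ℝ) = (n + 2) * (n + 1).factorial := by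
      rw [Nat.factorial_succ (n + 1)]; push_cast; ring
    have h4 : ((n + 1 + 1 + 1).factorial : ℝ) = (n + 3) * ((n + 2) * (n + 1).factorial) := by
      rw [Nat.factorial_succ (n + 2), Nat.cast_mul, h3]; push_cast; ring
    rw [h4, h3]
    push_cast
    have h5 : (n : ℝ) + 2 ≠ 0 := by positivity
    have h6 : (n : ℝ) + 3 ≠ 0 := by positivity
    field_simp
    ring

theorem ode2 : X * d⁄dX ℝ PS + PS = BS := by
  ext n
  rcases n with _ | n
  · rw [map_add, coeff_zero_X_mul, PS, BS, coeff_mk, coeff_mk]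
    norm_num
  · rw [map_add, coeff_succ_X_mul, coeff_derivative, PS, BS, coeff_mk, coeff_mk]
    have h1 : ((n + 1).factorial : ℝ) ≠ 0 := by positivity
    have h3 : ((n + 1 + 1).factorial : ℝ) = (n + 2) * (n + 1).factorial := by
      rw [Nat.factorial_succ (n + 1)]; push_cast; ring
    rw [h3]
    have h5 : (n : ℝ) + 2 ≠ 0 := by positivity
    field_simp
    ring

/-- `-ψ'/ψ` -/
noncomputable def y : ℝ⟦X⟧ := -(d⁄dX ℝ PS * PS⁻¹)

theorem deriv_r : d⁄dX ℝ PS⁻¹ = y * PS⁻¹ := by
  rw [derivative_inv', y]; ring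

theorem deriv_y : X * d⁄dX ℝ y = 1 - 2 * y + X * (y * y) := by
  have h1 : d⁄dX ℝ y = -(d⁄dX ℝ (d⁄dX ℝ PS) * PS⁻¹) + y * y := by
    conv_lhs => rw [y, map_neg, Derivation.leibniz, deriv_r]
    rw [y]
    simp only [smul_eq_mul]
    ring
  have h2 : PS * PS⁻¹ = 1 := PowerSeries.mul_inv_cancel _ ps_ne
  have h3 := ode1
  have h4 : X * d⁄dX ℝ (d⁄dX ℝ PS) = -(2 * d⁄dX ℝ PS) - PS := by
    linear_combination h3
  rw [h1, mul_add, mul_neg, ← mul_assoc, h4]
  have h5 : -((-(2 * d⁄dX ℝ PS) - PS) * PS⁻¹) = 2 * (d⁄dX ℝ PS * PS⁻¹) + PS * PS⁻¹ := by ring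
  rw [h5, h2]
  have h6 : d⁄dX ℝ PS * PS⁻¹ = -y := by rw [y, neg_neg]
  rw [h6]
  ring

theorem y_zero : coeff 0 y = 1 / 2 := by
  have h := congrArg (coeff 0) deriv_y
  have h2 : (2 : ℝ⟦X⟧) = C (2 : ℝ) := (map_ofNat (C (R := ℝ)) 2).symm
  rw [h2, coeff_zero_X_mul, map_add, map_sub, coeff_C_mul, coeff_zero_X_mul, coeff_zero_one] at h
  linarith

theorem y_succ (n : ℕ) : (n + 3 : ℝ) * coeff (n + 1) y = coeff n (y * y) := by
  have h := congrArg (coeff (n + 1)) deriv_y
  have h2 : (2 : ℝ⟦X⟧) = C (2 : ℝ) := (map_ofNat (C (R := ℝ)) 2).symm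
  rw [h2, coeff_succ_X_mul, map_add, map_sub, coeff_C_mul, coeff_succ_X_mul, coeff_derivative,
    coeff_one, if_neg (Nat.succ_ne_zero n)] at h
  linarith

theorem y_bound : ∀ n, 0 ≤ coeff n y ∧ coeff n y ≤ (1 / 2) ^ (n + 1) := by
  intro n
  induction n using Nat.strong_induction_on with
  | _ n ih =>
    rcases n with _ | n
    · rw [y_zero]; norm_num
    · have h := y_succ n
      rw [coeff_mul] at h
      have hle : ∀ p ∈ Finset.HasAntidiagonal.antidiagonal n, p.1 < n + 1 ∧ p.2 < n + 1 ∧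
          p.1 + p.2 = n := by
        intro p hp
        rw [Finset.HasAntidiagonal.mem_antidiagonal] at hp
        omega
      have h1 : 0 ≤ ∑ p ∈ Finset.HasAntidiagonal.antidiagonal n, coeff p.1 y * coeff p.2 y :=
        Finset.sum_nonneg fun p hp =>
          mul_nonneg (ih _ (hle p hp).1).1 (ih _ (hle p hp).2.1).1
      have h2 : ∑ p ∈ Finset.HasAntidiagonal.antidiagonal n, coeff p.1 y * coeff p.2 y ≤
          (n + 1) * (1 / 2) ^ (n + 2) := by
        calc _ ≤ ∑ p ∈ Finset.HasAntidiagonal.antidiagonal n, (1 / 2 : ℝ) ^ (n + 2) := by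
              refine Finset.sum_le_sum fun p hp => ?_
              obtain ⟨ha, hb, hab⟩ := hle p hp
              calc coeff p.1 y * coeff p.2 y ≤ (1 / 2) ^ (p.1 + 1) * (1 / 2) ^ (p.2 + 1) :=
                    mul_le_mul (ih _ ha).2 (ih _ hb).2 (ih _ hb).1 (by positivity)
                _ = (1 / 2) ^ (n + 2) := by
                    rw [← pow_add]; congr 1; omega
          _ = _ := by
              rw [Finset.sum_const, Finset.Nat.card_antidiagonal, nsmul_eq_mul]
              push_cast; ring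
      have h3 : (0 : ℝ) < n + 3 := by positivity
      constructor
      · by_contra hneg
        rw [not_le] at hneg
        have := mul_neg_of_pos_of_neg h3 hneg
        linarith
      · have h4 : (n + 3 : ℝ) * coeff (n + 1) y ≤ (n + 3) * (1 / 2) ^ (n + 1 + 1) := by
          rw [h]
          refine h2.trans ?_
          have : (0 : ℝ) ≤ (1 / 2) ^ (n + 2) := by positivity
          have h5 : (n + 1 : ℝ) * (1 / 2) ^ (n + 2) ≤ (n + 3) * (1 / 2) ^ (n + 2) :=
            mul_le_mul_of_nonneg_right (by linarith) this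
          exact h5
        exact le_of_mul_le_mul_left h4 h3

theorem r_zero : coeff 0 PS⁻¹ = (1 : ℝ) := by
  rw [coeff_zero_eq_constantCoeff_apply, constantCoeff_inv, ← coeff_zero_eq_constantCoeff_apply,
    PS, coeff_mk]
  norm_num

theorem r_bound : ∀ n, 0 ≤ coeff n PS⁻¹ ∧ coeff n PS⁻¹ ≤ (1 / 2 : ℝ) ^ n := by
  intro n
  induction n using Nat.strong_induction_on with
  | _ n ih =>
    rcases n with _ | n
    · rw [r_zero]; norm_num
    · have h := congrArg (coeff n) deriv_r
      rw [coeff_derivative, coeff_mul] at h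
      have hle : ∀ p ∈ Finset.HasAntidiagonal.antidiagonal n, p.1 < n + 1 ∧ p.2 < n + 1 ∧
          p.1 + p.2 = n := by
        intro p hp
        rw [Finset.HasAntidiagonal.mem_antidiagonal] at hp
        omega
      have h1 : 0 ≤ ∑ p ∈ Finset.HasAntidiagonal.antidiagonal n,
          coeff p.1 y * coeff p.2 PS⁻¹ :=
        Finset.sum_nonneg fun p hp =>
          mul_nonneg (y_bound _).1 (ih _ (hle p hp).2.1).1
      have h2 : ∑ p ∈ Finset.HasAntidiagonal.antidiagonal n, coeff p.1 y * coeff p.2 PS⁻¹ ≤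
          (n + 1) * (1 / 2) ^ (n + 1) := by
        calc _ ≤ ∑ p ∈ Finset.HasAntidiagonal.antidiagonal n, (1 / 2 : ℝ) ^ (n + 1) := by
              refine Finset.sum_le_sum fun p hp => ?_
              obtain ⟨ha, hb, hab⟩ := hle p hp
              calc coeff p.1 y * coeff p.2 PS⁻¹ ≤ (1 / 2) ^ (p.1 + 1) * (1 / 2) ^ (p.2) :=
                    mul_le_mul (y_bound _).2 (ih _ hb).2 (ih _ hb).1 (by positivity)
                _ = (1 / 2) ^ (n + 1) := by
                    rw [← pow_add]; congr 1; omega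
          _ = _ := by
              rw [Finset.sum_const, Finset.Nat.card_antidiagonal, nsmul_eq_mul]
              push_cast; ring
      have h3 : (0 : ℝ) < n + 1 := by positivity
      rw [← h, mul_comm] at h1 h2
      constructor
      · by_contra hneg
        rw [not_le] at hneg
        have := mul_neg_of_pos_of_neg h3 hneg
        linarith
      · exact le_of_mul_le_mul_left h2 h3

/-- the mean relation -/
theorem mean_rel : X * d⁄dX ℝ PS⁻¹ = PS⁻¹ - BS * (PS⁻¹ * PS⁻¹) := by
  have h2 : PS * PS⁻¹ = 1 := PowerSeries.mul_inv_cancel _ ps_ne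
  rw [deriv_r, y, ← ode2]
  have h3 : PS⁻¹ - (X * d⁄dX ℝ PS + PS) * (PS⁻¹ * PS⁻¹) =
      PS⁻¹ - PS * PS⁻¹ * PS⁻¹ - X * d⁄dX ℝ PS * (PS⁻¹ * PS⁻¹) := by ring
  rw [h3, h2]
  ring

/-! ### absolutely convergent series at `1` -/

/-- absolutely summable coefficients -/
def AS (f : ℝ⟦X⟧) : Prop := Summable fun k => |coeff k f|

/-- the value at `1` -/
noncomputable def ev (f : ℝ⟦X⟧) : ℝ := ∑' k, coeff k f

theorem AS.mul {f g : ℝ⟦X⟧} (hf : AS f) (hg : AS g) : AS (f * g) ∧ ev (f * g) = ev f * ev g := by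
  have hf' : Summable fun k => ‖coeff k f‖ := hf
  have hg' : Summable fun k => ‖coeff k g‖ := hg
  constructor
  · have := summable_norm_sum_mul_antidiagonal_of_summable_norm hf' hg'
    unfold AS
    refine this.congr fun n => ?_
    rw [coeff_mul, Real.norm_eq_abs]
  · unfold ev
    rw [tsum_mul_tsum_eq_tsum_sum_antidiagonal_of_summable_norm hf' hg']
    refine tsum_congr fun n => ?_
    rw [coeff_mul]

theorem AS.summable {f : ℝ⟦X⟧} (hf : AS f) : Summable fun k => coeff k f := hf.of_abs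

/-- the geometric antidiagonal sum -/
theorem geo (x z : ℝ) (n : ℕ) :
    (z - x) * ∑ p ∈ Finset.HasAntidiagonal.antidiagonal n, x ^ p.1 * z ^ p.2 =
      z ^ (n + 1) - x ^ (n + 1) := by
  induction n with
  | zero => simp
  | succ n ih =>
    rw [sum_antidiag_succ]
    have h1 : ∑ p ∈ Finset.HasAntidiagonal.antidiagonal n, x ^ (p.1 + 1) * z ^ p.2 =
        x * ∑ p ∈ Finset.HasAntidiagonal.antidiagonal n, x ^ p.1 * z ^ p.2 := by
      rw [Finset.mul_sum]
      exact Finset.sum_congr rfl fun p _ => by ring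
    rw [h1, mul_add]
    have h2 : (z - x) * (x * ∑ p ∈ Finset.HasAntidiagonal.antidiagonal n, x ^ p.1 * z ^ p.2) =
        x * ((z - x) * ∑ p ∈ Finset.HasAntidiagonal.antidiagonal n, x ^ p.1 * z ^ p.2) := by ring
    rw [h2, ih]
    ring

/-- the inverse of a series dominated by its constant coefficient -/
theorem wiener {B D : ℝ⟦X⟧} (hBD : B * D = 1) (hB0 : coeff 0 B = 1)
    (hB : ∀ k, |coeff (k + 1) B| ≤ 27 / 40 * (1 / 6) ^ k) : ∀ n, |coeff n D| ≤ (9 / 10) ^ n := by
  intro n
  induction n using Nat.strong_induction_on with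
  | _ n ih =>
    have h := congrArg (coeff n) hBD
    rw [coeff_mul, coeff_one] at h
    rcases n with _ | n
    · rw [Finset.Nat.antidiagonal_zero, Finset.sum_singleton, hB0, one_mul, if_pos rfl] at h
      rw [h]; norm_num
    · rw [if_neg (Nat.succ_ne_zero n), sum_antidiag_succ, hB0, one_mul] at h
      have h1 : coeff (n + 1) D = -∑ p ∈ Finset.HasAntidiagonal.antidiagonal n,
          coeff (p.1 + 1) B * coeff p.2 D := by linarith
      rw [h1, abs_neg]
      have h2 : ∀ p ∈ Finset.HasAntidiagonal.antidiagonal n,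
          |coeff (p.1 + 1) B * coeff p.2 D| ≤ 27 / 40 * ((1 / 6) ^ p.1 * (9 / 10) ^ p.2) := by
        intro p hp
        rw [Finset.HasAntidiagonal.mem_antidiagonal] at hp
        rw [abs_mul, ← mul_assoc]
        exact mul_le_mul (hB _) (ih _ (by omega)) (abs_nonneg _) (by positivity)
      refine (Finset.abs_sum_le_sum_abs _ _).trans ((Finset.sum_le_sum h2).trans ?_)
      rw [← Finset.mul_sum]
      have h3 := geo (1 / 6) (9 / 10) n
      have h4 : (0 : ℝ) ≤ (1 / 6) ^ (n + 1) := by positivity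
      have h5 : (0 : ℝ) ≤ (9 / 10) ^ (n + 1) := by positivity
      linarith

end Ser

end R47.PK
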