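import Mathlib

/-! Parking functions on recursive trees: tree functionals and derivations (helper47). -/

namespace R47.PK
open Finset PowerSeries

/-- A recursive tree with the `n + 1` nodes `0, ..., n` (labels `1, ..., n + 1`): the root is node `0`
and the parent of node `i + 1` is `p i ∈ {0, ..., i}`. -/
abbrev RecTree (n : ℕ) : Type := (i : Fin n) → Fin (i.val + 1)

def initT {n : ℕ} (p : RecTree (n + 1)) : RecTree n := fun i => p i.castSucc
def lastPar {n : ℕ} (p : RecTree (n + 1)) : Fin (n + 1) := p (Fin.last n)

section Th
variable {R : Type*} [CommRing R]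

/-- the operator `h ↦ (h - h(0))/X + ε h(0)` -/
noncomputable def D (ε : R) (h : R⟦X⟧) : R⟦X⟧ :=
  PowerSeries.mk (fun i => coeff (i + 1) h) + C (ε * coeff 0 h)

lemma D_add (ε : R) (f g : R⟦X⟧) : D ε (f + g) = D ε f + D ε g := by
  ext i
  simp only [D, map_add, coeff_mk, coeff_C]
  split_ifs <;> ring

lemma coeff_D (ε : R) (f : R⟦X⟧) (i : ℕ) :
    coeff i (D ε f) = coeff (i + 1) f + if i = 0 then ε * coeff 0 f else 0 := by
  simp [D, coeff_C]

/-- coefficientwise extension of a map of the coefficient ring -/
noncomputable def ext' (d : R → R) (f : R⟦X⟧) : R⟦X⟧ := PowerSeries.mk fun i => d (coeff i f)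

lemma coeff_ext' (d : R → R) (f : R⟦X⟧) (i : ℕ) : coeff i (ext' d f) = d (coeff i f) := by
  simp [ext']

structure IsDer (d : R → R) : Prop where
  add : ∀ a b, d (a + b) = d a + d b
  mul : ∀ a b, d (a * b) = d a * b + a * d b

lemma IsDer.zero {d : R → R} (h : IsDer d) : d 0 = 0 := by
  have := h.add 0 0
  simpa using this

lemma IsDer.sum {d : R → R} (h : IsDer d) {ι : Type*} (s : Finset ι) (f : ι → R) :
    d (∑ i ∈ s, f i) = ∑ i ∈ s, d (f i) := by
  classical
  induction s using Finset.induction_on with
  | empty => simpa using h.zero
  | insert a s ha ih => rw [sum_insert ha, sum_insert ha, h.add, ih]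

lemma ext'_add {d : R → R} (h : IsDer d) (f g : R⟦X⟧) :
    ext' d (f + g) = ext' d f + ext' d g := by
  ext i; simp [coeff_ext', h.add]

lemma ext'_mul {d : R → R} (h : IsDer d) (f g : R⟦X⟧) :
    ext' d (f * g) = ext' d f * g + f * ext' d g := by
  ext i
  simp only [coeff_ext', coeff_mul, map_add, h.sum, h.mul, sum_add_distrib]

lemma ext'_der {d : R → R} (h : IsDer d) : IsDer (ext' d) := ⟨ext'_add h, ext'_mul h⟩

lemma ext'_D {d : R → R} (h : IsDer d) {ε : R} (hε : d ε = 0) (f : R⟦X⟧) :
    ext' d (D ε f) = D ε (ext' d f) := by
  ext i
  simp only [coeff_ext', coeff_D, h.add]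
  split_ifs
  · simp [h.mul, hε]
  · simp [h.zero]

/-- the tree functional: `g i` is the generating series of the arrivals at node `i` -/
noncomputable def Th (ε : R) : (n : ℕ) → RecTree n → (Fin (n + 1) → R⟦X⟧) → R⟦X⟧
  | 0, _, g => g 0
  | n + 1, p, g => Th ε n (initT p)
      (Function.update (fun i => g i.castSucc) (lastPar p)
        (g (lastPar p).castSucc * D ε (g (Fin.last (n + 1)))))

lemma upd_cast {n : ℕ} {α : Type*} (g : Fin (n + 2) → α) (i : Fin (n + 1)) (x : α) :
    (fun k : Fin (n + 1) => Function.update g i.castSucc x k.castSucc) =
      Function.update (fun k : Fin (n + 1) => g k.castSucc) i x := by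
  funext k
  by_cases hk : k = i
  · subst hk; simp
  · rw [Function.update_of_ne hk, Function.update_of_ne]
    intro h
    exact hk (Fin.castSucc_injective _ h)

lemma upd_last {n : ℕ} {α : Type*} (g : Fin (n + 2) → α) (x : α) :
    (fun k : Fin (n + 1) => Function.update g (Fin.last (n + 1)) x k.castSucc) =
      (fun k : Fin (n + 1) => g k.castSucc) := by
  funext k
  rw [Function.update_of_ne]
  exact (Fin.castSucc_lt_last k).ne

lemma Th_add (ε : R) : ∀ (n : ℕ) (p : RecTree n) (g : Fin (n + 1) → R⟦X⟧) (i : Fin (n + 1))
    (x y : R⟦X⟧), Th ε n p (Function.update g i (x + y)) =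
      Th ε n p (Function.update g i x) + Th ε n p (Function.update g i y)
  | 0, p, g, i, x, y => by
      obtain rfl : i = 0 := Fin.ext (by omega)
      simp [Th]
  | n + 1, p, g, i, x, y => by
      simp only [Th]
      induction i using Fin.lastCases with
      | last =>
        simp only [upd_last, Function.update_self]
        have h : (lastPar p).castSucc ≠ Fin.last (n + 1) := (Fin.castSucc_lt_last _).ne
        simp only [Function.update_of_ne h, D_add, mul_add]
        rw [Th_add ε n]
      | cast i =>
        have h : Fin.last (n + 1) ≠ i.castSucc := (Fin.castSucc_lt_last _).ne'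
        simp only [upd_cast, Function.update_of_ne h]
        by_cases hj : lastPar p = i
        · subst hj
          simp only [Function.update_self, Function.update_idem, add_mul]
          rw [Th_add ε n]
        · have h2 : (lastPar p).castSucc ≠ i.castSucc :=
            fun h => hj (Fin.castSucc_injective _ h)
          simp only [Function.update_of_ne h2]
          rw [Function.update_comm (Ne.symm hj), Function.update_comm (Ne.symm hj),
            Function.update_comm (Ne.symm hj)]
          rw [Th_add ε n]

lemma Th_smul (ε : R) : ∀ (n : ℕ) (p : RecTree n) (g : Fin (n + 1) → R⟦X⟧) (i : Fin (n + 1))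
    (a : R) (x : R⟦X⟧), Th ε n p (Function.update g i (C a * x)) =
      C a * Th ε n p (Function.update g i x)
  | 0, p, g, i, a, x => by
      obtain rfl : i = 0 := Fin.ext (by omega)
      simp [Th]
  | n + 1, p, g, i, a, x => by
      simp only [Th]
      induction i using Fin.lastCases with
      | last =>
        simp only [upd_last, Function.update_self]
        have h : (lastPar p).castSucc ≠ Fin.last (n + 1) := (Fin.castSucc_lt_last _).ne
        have hD : D ε (C a * x) = C a * D ε x := by
          ext k
          simp only [coeff_D, coeff_C_mul]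
          split_ifs <;> ring
        simp only [Function.update_of_ne h, hD, mul_left_comm _ (C a) _]
        rw [Th_smul ε n]
      | cast i =>
        have h : Fin.last (n + 1) ≠ i.castSucc := (Fin.castSucc_lt_last _).ne'
        simp only [upd_cast, Function.update_of_ne h]
        by_cases hj : lastPar p = i
        · subst hj
          simp only [Function.update_self, Function.update_idem, mul_assoc]
          rw [Th_smul ε n]
        · have h2 : (lastPar p).castSucc ≠ i.castSucc :=
            fun h => hj (Fin.castSucc_injective _ h)
          simp only [Function.update_of_ne h2]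
          rw [Function.update_comm (Ne.symm hj), Function.update_comm (Ne.symm hj)]
          rw [Th_smul ε n]

/-- Leibniz rule for the tree functional -/
lemma Th_der {d : R → R} (hd : IsDer d) {ε : R} (hε : d ε = 0) :
    ∀ (n : ℕ) (p : RecTree n) (g : Fin (n + 1) → R⟦X⟧),
      ext' d (Th ε n p g) = ∑ i, Th ε n p (Function.update g i (ext' d (g i)))
  | 0, p, g => by
      simp [Th]
  | n + 1, p, g => by
      rw [Fin.sum_univ_castSucc]
      simp only [Th]
      rw [Th_der hd hε n]
      rw [← Finset.add_sum_erase _ _ (mem_univ (lastPar p)),
        ← Finset.add_sum_erase (a := lastPar p) _ _ (mem_univ (lastPar p))]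
      have h : (lastPar p).castSucc ≠ Fin.last (n + 1) := (Fin.castSucc_lt_last _).ne
      have e1 : ∀ i ∈ univ.erase (lastPar p),
          Th ε n (initT p) (Function.update (Function.update (fun k => g k.castSucc) (lastPar p)
            (g (lastPar p).castSucc * D ε (g (Fin.last (n + 1))))) i
            (ext' d (Function.update (fun k => g k.castSucc) (lastPar p)
            (g (lastPar p).castSucc * D ε (g (Fin.last (n + 1)))) i))) =
          Th ε n (initT p) (Function.update
            (fun k : Fin (n + 1) => Function.update g i.castSucc (ext' d (g i.castSucc)) k.castSucc)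
            (lastPar p) (Function.update g i.castSucc (ext' d (g i.castSucc)) (lastPar p).castSucc *
              D ε (Function.update g i.castSucc (ext' d (g i.castSucc)) (Fin.last (n + 1))))) := by
        intro i hi
        have hi' : i ≠ lastPar p := (mem_erase.mp hi).1
        have h2 : (lastPar p).castSucc ≠ i.castSucc :=
            fun h => hi' (Fin.castSucc_injective _ h).symm
        have h3 : Fin.last (n + 1) ≠ i.castSucc := (Fin.castSucc_lt_last _).ne'
        rw [upd_cast, Function.update_of_ne hi', Function.update_of_ne h2,
          Function.update_of_ne h3, Function.update_comm hi'.symm]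
      rw [Finset.sum_congr rfl e1]
      simp only [upd_cast, upd_last, Function.update_self, Function.update_idem,
        Function.update_of_ne h, Function.update_of_ne h.symm, ext'_mul hd, ext'_D hd hε]
      rw [Th_add]
      ring

end Th
end R47.PK
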