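import Mathlib
import Pool.Agent.R47.PK.Core

/-! Parking functions on recursive trees: combinatorics of the leaf elimination (helper47). -/

namespace R47.PK
open Finset PowerSeries

/-- the parent of node `i + 1` -/
def par {n : ℕ} (p : RecTree n) (i : Fin n) : Fin (n + 1) := ⟨(p i).val, by omega⟩

/-- `A` is (the node set of) a subtree containing the root -/
def IsSub {n : ℕ} (p : RecTree n) (A : Finset (Fin (n + 1))) : Prop :=
  0 ∈ A ∧ ∀ i : Fin n, i.succ ∈ A → par p i ∈ A

/-- `s` (the preferences of `m` drivers) is a parking function for the tree `p` -/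
def IsParking {n m : ℕ} (p : RecTree n) (s : Fin m → Fin (n + 1)) : Prop :=
  ∀ A : Finset (Fin (n + 1)), IsSub p A → (univ.filter fun k => s k ∈ A).card ≤ A.card

open Classical in
/-- the number of pairs (recursive tree with `n + 1` nodes, parking function with `m` drivers) -/
noncomputable def numR (n m : ℕ) : ℕ :=
  (univ.filter fun ps : RecTree n × (Fin m → Fin (n + 1)) => IsParking ps.1 ps.2).card

/-- counts -/
def cnt {n m : ℕ} (s : Fin m → Fin (n + 1)) (i : Fin (n + 1)) : ℕ :=
  (univ.filter fun k => s k = i).card

def Good {n : ℕ} (p : RecTree n) (c : Fin (n + 1) → ℕ) : Prop :=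
  ∀ A : Finset (Fin (n + 1)), IsSub p A → ∑ i ∈ A, c i ≤ A.card

lemma isParking_iff {n m : ℕ} (p : RecTree n) (s : Fin m → Fin (n + 1)) :
    IsParking p s ↔ Good p (cnt s) := by
  unfold IsParking Good
  refine forall_congr' fun A => imp_congr_right fun _ => ?_
  have : (univ.filter fun k => s k ∈ A).card = ∑ i ∈ A, cnt s i := by
    rw [card_eq_sum_card_fiberwise (f := s) (t := A)]
    · refine sum_congr rfl fun i hi => ?_
      unfold cnt
      congr 1
      ext k
      simp only [mem_filter, mem_univ, true_and]
      constructor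
      · rintro ⟨_, h⟩; exact h
      · intro h; exact ⟨h ▸ hi, h⟩
    · intro k hk
      simpa using hk
  rw [this]

def push {n : ℕ} (p : RecTree (n + 1)) (c : Fin (n + 2) → ℕ) : Fin (n + 1) → ℕ :=
  Function.update (fun i => c i.castSucc) (lastPar p)
    (c (lastPar p).castSucc + (c (Fin.last (n + 1)) - 1))

def arr : (n : ℕ) → RecTree n → (Fin (n + 1) → ℕ) → ℕ
  | 0, _, c => c 0
  | n + 1, p, c => arr n (initT p) (push p c)

def emp : (n : ℕ) → RecTree n → (Fin (n + 1) → ℕ) → ℕ
  | 0, _, _ => 0
  | n + 1, p, c => emp n (initT p) (push p c) + if c (Fin.last (n + 1)) = 0 then 1 else 0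

lemma sum_push {n : ℕ} (p : RecTree (n + 1)) (c : Fin (n + 2) → ℕ) :
    ∑ i, push p c i = ∑ i : Fin (n + 1), c i.castSucc + (c (Fin.last (n + 1)) - 1) := by
  unfold push
  rw [← Finset.add_sum_erase _ _ (mem_univ (lastPar p)),
    ← Finset.add_sum_erase (a := lastPar p) univ (fun i : Fin (n + 1) => c i.castSucc) (mem_univ _)]
  simp only [Function.update_self]
  rw [sum_congr rfl (fun i hi => Function.update_of_ne (mem_erase.mp hi).1 _ _)]
  ring

lemma arr_emp : ∀ (n : ℕ) (p : RecTree n) (c : Fin (n + 1) → ℕ),
    arr n p c + n = ∑ i, c i + emp n p c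
  | 0, p, c => by simp [arr, emp]
  | n + 1, p, c => by
      have := arr_emp n (initT p) (push p c)
      rw [sum_push] at this
      rw [Fin.sum_univ_castSucc]
      simp only [arr, emp]
      split_ifs <;> omega

lemma sum_preimage {n : ℕ} (A : Finset (Fin (n + 2))) (c : Fin (n + 2) → ℕ) :
    ∑ i ∈ A, c i = ∑ i ∈ univ.filter (fun i : Fin (n + 1) => i.castSucc ∈ A), c i.castSucc +
      if Fin.last (n + 1) ∈ A then c (Fin.last (n + 1)) else 0 := by
  have h : ∑ i ∈ A, c i = ∑ i, if i ∈ A then c i else 0 := by simp
  rw [h, Fin.sum_univ_castSucc]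
  congr 1
  rw [sum_filter]

lemma card_preimage' {n : ℕ} (A : Finset (Fin (n + 2))) :
    A.card = (univ.filter (fun i : Fin (n + 1) => i.castSucc ∈ A)).card +
      if Fin.last (n + 1) ∈ A then 1 else 0 := by
  have := sum_preimage A (fun _ => 1)
  simpa using this

lemma isSub_pre {n : ℕ} (p : RecTree (n + 1)) (A : Finset (Fin (n + 2))) (hA : IsSub p A) :
    IsSub (initT p) (univ.filter (fun i : Fin (n + 1) => i.castSucc ∈ A)) := by
  refine ⟨?_, ?_⟩
  · have := hA.1
    simpa using this
  · intro i hi
    simp only [mem_filter, mem_univ, true_and] at hi ⊢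
    have h1 : (i.castSucc : Fin (n + 1)).succ ∈ A := by
      have : (i.castSucc : Fin (n + 1)).succ = (i.succ : Fin (n + 1)).castSucc := rfl
      rw [this]; exact hi
    have := hA.2 _ h1
    exact this

/-- lifting a subtree -/
def lift {n : ℕ} (A : Finset (Fin (n + 1))) (b : Bool) : Finset (Fin (n + 2)) :=
  univ.filter fun i : Fin (n + 2) => Fin.lastCases (motive := fun _ => Bool) b
    (fun j => decide (j ∈ A)) i = true

lemma mem_lift_cast {n : ℕ} (A : Finset (Fin (n + 1))) (b : Bool) (i : Fin (n + 1)) :
    i.castSucc ∈ lift A b ↔ i ∈ A := by simp [lift]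

lemma mem_lift_last {n : ℕ} (A : Finset (Fin (n + 1))) (b : Bool) :
    Fin.last (n + 1) ∈ lift A b ↔ b = true := by simp [lift]

lemma pre_lift {n : ℕ} (A : Finset (Fin (n + 1))) (b : Bool) :
    univ.filter (fun i : Fin (n + 1) => i.castSucc ∈ lift A b) = A := by
  ext i; simp [mem_lift_cast]

lemma isSub_lift {n : ℕ} (p : RecTree (n + 1)) (A : Finset (Fin (n + 1))) (b : Bool)
    (hA : IsSub (initT p) A) (hb : b = true → lastPar p ∈ A) : IsSub p (lift A b) := by
  refine ⟨?_, ?_⟩
  · have : (0 : Fin (n + 2)) = (0 : Fin (n + 1)).castSucc := rfl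
    rw [this, mem_lift_cast]; exact hA.1
  · intro i
    induction i using Fin.lastCases with
    | last =>
      intro h
      rw [Fin.succ_last, mem_lift_last] at h
      have := hb h
      have e : par p (Fin.last n) = (lastPar p).castSucc := rfl
      rw [e, mem_lift_cast]; exact this
    | cast i =>
      intro h
      have e0 : (i.castSucc : Fin (n + 1)).succ = (i.succ : Fin (n + 1)).castSucc := rfl
      rw [e0, mem_lift_cast] at h
      have e : par p i.castSucc = (par (initT p) i).castSucc := rfl
      rw [e, mem_lift_cast]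
      exact hA.2 _ h

lemma sum_push_on {n : ℕ} (p : RecTree (n + 1)) (c : Fin (n + 2) → ℕ) (A : Finset (Fin (n + 1))) :
    ∑ i ∈ A, push p c i = ∑ i ∈ A, c i.castSucc +
      if lastPar p ∈ A then (c (Fin.last (n + 1)) - 1) else 0 := by
  unfold push
  split_ifs with h
  · rw [← Finset.add_sum_erase _ _ h,
      ← Finset.add_sum_erase (a := lastPar p) A (fun i : Fin (n + 1) => c i.castSucc) h]
    simp only [Function.update_self]
    rw [sum_congr rfl (fun i hi => Function.update_of_ne (mem_erase.mp hi).1 _ _)]
    ring
  · rw [sum_congr rfl (fun i hi => Function.update_of_ne (fun (e : i = lastPar p) => h (e ▸ hi)) _ _)]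
    simp

lemma good_push {n : ℕ} (p : RecTree (n + 1)) (c : Fin (n + 2) → ℕ) :
    Good p c ↔ Good (initT p) (push p c) := by
  constructor
  · intro h A hA
    rw [sum_push_on]
    split_ifs with hj
    · have := h (lift A true) (isSub_lift p A true hA (fun _ => hj))
      rw [sum_preimage, card_preimage', pre_lift, if_pos ((mem_lift_last A true).mpr rfl),
        if_pos ((mem_lift_last A true).mpr rfl)] at this
      have h0 := h (lift A false) (isSub_lift p A false hA (by simp))
      have hl : Fin.last (n + 1) ∉ lift A false := by rw [mem_lift_last]; simp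
      rw [sum_preimage, card_preimage', pre_lift, if_neg hl, if_neg hl] at h0
      omega
    · have h0 := h (lift A false) (isSub_lift p A false hA (by simp))
      have hl : Fin.last (n + 1) ∉ lift A false := by rw [mem_lift_last]; simp
      rw [sum_preimage, card_preimage', pre_lift, if_neg hl, if_neg hl] at h0
      omega
  · intro h A hA
    have h1 := h _ (isSub_pre p A hA)
    rw [sum_push_on] at h1
    rw [sum_preimage, card_preimage' A]
    by_cases hl : Fin.last (n + 1) ∈ A
    · have hj : lastPar p ∈ univ.filter (fun i : Fin (n + 1) => i.castSucc ∈ A) := by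
        simp only [mem_filter, mem_univ, true_and]
        have := hA.2 (Fin.last n) (by rw [Fin.succ_last]; exact hl)
        exact this
      rw [if_pos hl, if_pos hl]
      rw [if_pos hj] at h1
      omega
    · rw [if_neg hl, if_neg hl]
      split_ifs at h1 <;> omega

lemma good_iff : ∀ (n : ℕ) (p : RecTree n) (c : Fin (n + 1) → ℕ), Good p c ↔ arr n p c ≤ 1
  | 0, p, c => by
      simp only [arr, Good]
      constructor
      · intro h
        have := h {0} ⟨by simp, fun i => i.elim0⟩
        simpa using this
      · intro h A hA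
        have : A = {0} := by
          ext i
          have : i = 0 := Fin.ext (by omega)
          subst this
          simpa using hA.1
        subst this
        simpa using h
  | n + 1, p, c => by
      rw [good_push, good_iff n]
      rfl

section
variable {R : Type*} [CommRing R]

lemma D_one (ε : R) : D ε (1 : R⟦X⟧) = C ε := by
  ext i
  rw [coeff_D, coeff_C]
  simp [coeff_one]

lemma D_X_pow (ε : R) (a : ℕ) : D ε ((X : R⟦X⟧) ^ (a + 1)) = X ^ a := by
  ext i
  rw [coeff_D]
  simp only [coeff_X_pow]
  simp

lemma Th_mono (ε : R) : ∀ (n : ℕ) (p : RecTree n) (c : Fin (n + 1) → ℕ),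
    Th ε n p (fun i => (X : R⟦X⟧) ^ c i) = C (ε ^ emp n p c) * X ^ arr n p c
  | 0, p, c => by simp [Th, arr, emp]
  | n + 1, p, c => by
      simp only [Th, arr, emp]
      rcases Nat.eq_zero_or_pos (c (Fin.last (n + 1))) with h0 | h0
      · rw [h0, pow_zero, D_one, mul_comm, Th_smul, if_pos rfl]
        have : Function.update (fun i : Fin (n + 1) => (X : R⟦X⟧) ^ c i.castSucc) (lastPar p)
            (X ^ c (lastPar p).castSucc) = fun i => X ^ push p c i := by
          funext i
          unfold push
          by_cases hi : i = lastPar p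
          · subst hi; simp [h0]
          · rw [Function.update_of_ne hi, Function.update_of_ne hi]
        rw [this, Th_mono ε n, pow_succ, map_mul]
        ring
      · obtain ⟨a, ha⟩ : ∃ a, c (Fin.last (n + 1)) = a + 1 := ⟨_, (Nat.succ_pred_eq_of_pos h0).symm⟩
        rw [ha, D_X_pow, ← pow_add, if_neg (by omega)]
        have : Function.update (fun i : Fin (n + 1) => (X : R⟦X⟧) ^ c i.castSucc) (lastPar p)
            (X ^ (c (lastPar p).castSucc + a)) = fun i => X ^ push p c i := by
          funext i
          unfold push
          by_cases hi : i = lastPar p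
          · subst hi; simp [ha]
          · rw [Function.update_of_ne hi, Function.update_of_ne hi]
        rw [this, Th_mono ε n, Nat.add_zero]

/-- naturality -/
lemma Th_map {R' : Type*} [CommRing R'] (φ : R →+* R') (ε : R) :
    ∀ (n : ℕ) (p : RecTree n) (g : Fin (n + 1) → R⟦X⟧),
      PowerSeries.map φ (Th ε n p g) = Th (φ ε) n p (fun i => PowerSeries.map φ (g i))
  | 0, p, g => by simp [Th]
  | n + 1, p, g => by
      simp only [Th]
      rw [Th_map φ ε n]
      congr 1
      funext i
      by_cases hi : i = lastPar p
      · subst hi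
        simp only [Function.update_self, map_mul]
        congr 1
        ext k
        rw [coeff_map, coeff_D, coeff_D]
        split_ifs <;> simp
      · rw [Function.update_of_ne hi, Function.update_of_ne hi]

end
end R47.PK
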