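import Mathlib
import Pool.Agent.R47.PK.Comb

/-! Parking functions on recursive trees: adding the drivers one by one (helper47). -/

namespace R47.PK
open Finset PowerSeries

section
variable {R : Type*} [CommRing R]

lemma iter_sum {d : R → R} (h : IsDer d) {ι : Type*} (s : Finset ι) (f : ι → R) (m : ℕ) :
    d^[m] (∑ i ∈ s, f i) = ∑ i ∈ s, d^[m] (f i) := by
  induction m generalizing f with
  | zero => simp
  | succ m ih => simp only [Function.iterate_succ_apply, h.sum, ih]

lemma coeff_iter_ext' (d : R → R) (m i : ℕ) (f : R⟦X⟧) :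
    coeff i ((ext' d)^[m] f) = d^[m] (coeff i f) := by
  induction m generalizing f with
  | zero => simp
  | succ m ih => simp only [Function.iterate_succ_apply, ih, coeff_ext']

lemma ext'_X_pow {d : R → R} (h : IsDer d) (h1 : d 1 = 0) (k : ℕ) :
    ext' d ((X : R⟦X⟧) ^ k) = 0 := by
  ext i
  rw [coeff_ext', coeff_X_pow]
  split_ifs
  · simpa using h1
  · simpa using h.zero

lemma cnt_cons {n m : ℕ} (j : Fin (n + 1)) (s : Fin m → Fin (n + 1)) (i : Fin (n + 1)) :
    cnt (Fin.cons j s : Fin (m + 1) → Fin (n + 1)) i = (if i = j then 1 else 0) + cnt s i := by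
  unfold cnt
  rw [card_filter, card_filter, Fin.sum_univ_succ]
  simp only [Fin.cons_zero, Fin.cons_succ]
  congr 1
  by_cases h : i = j
  · simp [h]
  · simp [h, Ne.symm h]

lemma cars {d : R → R} (hd : IsDer d) (h1 : d 1 = 0) {ε : R} (hε : d ε = 0) (e : R⟦X⟧)
    (he : ext' d e = X * e) (n : ℕ) (p : RecTree n) (m : ℕ) :
    ∀ c : Fin (n + 1) → ℕ, (ext' d)^[m] (Th ε n p (fun i => X ^ c i * e)) =
      ∑ s : Fin m → Fin (n + 1), Th ε n p (fun i => X ^ (c i + cnt s i) * e) := by
  induction m with
  | zero =>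
    intro c
    simp [cnt]
  | succ m ih =>
    intro c
    rw [Function.iterate_succ_apply, Th_der hd hε, iter_sum (ext'_der hd)]
    have e1 : ∀ j : Fin (n + 1), (ext' d)^[m] (Th ε n p
        (Function.update (fun i => X ^ c i * e) j (ext' d ((fun i => X ^ c i * e) j)))) =
        ∑ s : Fin m → Fin (n + 1),
          Th ε n p (fun i => X ^ (c i + ((if i = j then 1 else 0) + cnt s i)) * e) := by
      intro j
      have : Function.update (fun i => X ^ c i * e) j (ext' d ((fun i => X ^ c i * e) j)) =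
          fun i => X ^ (c i + if i = j then 1 else 0) * e := by
        funext i
        by_cases hi : i = j
        · subst hi
          simp only [Function.update_self, ext'_mul hd, ext'_X_pow hd h1, he, if_true]
          ring
        · rw [Function.update_of_ne hi, if_neg hi]
          simp
      rw [this, ih]
      simp only [add_assoc]
    rw [sum_congr rfl (fun j _ => e1 j)]
    rw [← (Fin.consEquiv (fun _ : Fin (m + 1) => Fin (n + 1))).sum_comp, Fintype.sum_prod_type]
    refine sum_congr rfl fun j _ => sum_congr rfl fun s _ => ?_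
    congr 1
    funext i
    have : (Fin.consEquiv (fun _ : Fin (m + 1) => Fin (n + 1))) (j, s) =
      (Fin.cons j s : Fin (m + 1) → Fin (n + 1)) := rfl
    rw [this, cnt_cons]

end

/-- the derivation `d/du` of `ℚ⟦u⟧` -/
noncomputable def dU : ℚ⟦X⟧ → ℚ⟦X⟧ := fun f => PowerSeries.derivative ℚ f

lemma dU_der : IsDer dU := by
  refine ⟨fun a b => by simp [dU], fun a b => ?_⟩
  unfold dU
  rw [Derivation.leibniz]
  simp only [smul_eq_mul]
  ring

lemma dU_C (a : ℚ) : dU (C a) = 0 := by
  unfold dU
  ext i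
  rw [coeff_derivative]
  simp

lemma coeff_iter_dU (m : ℕ) : ∀ (k : ℕ) (a : ℚ⟦X⟧),
    (k.factorial : ℚ) * coeff k (dU^[m] a) = ((k + m).factorial : ℚ) * coeff (k + m) a := by
  induction m with
  | zero => simp
  | succ m ih =>
    intro k a
    rw [Function.iterate_succ_apply, ih]
    unfold dU
    rw [coeff_derivative, ← add_assoc, Nat.factorial_succ]
    push_cast
    ring

/-- `e^{uX}` in `ℚ⟦u⟧⟦X⟧` -/
noncomputable def eU : ℚ⟦X⟧⟦X⟧ :=
  PowerSeries.mk fun k => (C ((k.factorial : ℚ)⁻¹) * X ^ k : ℚ⟦X⟧)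

lemma dU_eU : ext' dU eU = X * eU := by
  ext i : 1
  rw [coeff_ext']
  rcases i with _ | i
  · rw [coeff_zero_X_mul]
    unfold eU
    rw [coeff_mk]
    simp only [Nat.factorial_zero, Nat.cast_one, inv_one, map_one, pow_zero, mul_one]
    exact dU_C 1
  · rw [coeff_succ_X_mul]
    unfold eU
    rw [coeff_mk, coeff_mk]
    ext j
    unfold dU
    rw [coeff_derivative, coeff_C_mul, coeff_C_mul, coeff_X_pow, coeff_X_pow]
    by_cases h : j = i
    · subst h
      simp only [if_true, mul_one]
      rw [Nat.factorial_succ]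
      push_cast
      have := Nat.cast_ne_zero (R := ℚ).mpr (Nat.factorial_ne_zero j)
      field_simp
    · rw [if_neg (by omega), if_neg h]; simp

lemma map_eU : PowerSeries.map (constantCoeff (R := ℚ)) eU = 1 := by
  ext i
  rw [coeff_map]
  unfold eU
  rw [coeff_mk, coeff_one]
  by_cases h : i = 0
  · subst h; simp
  · simp [h]

lemma coeff_Th (ε : ℚ) (n : ℕ) (p : RecTree n) (m i : ℕ) :
    (m.factorial : ℚ) * coeff m (coeff i (Th (C ε) n p (fun _ => eU))) =
      ∑ s : Fin m → Fin (n + 1), if i = arr n p (cnt s) then ε ^ emp n p (cnt s) else 0 := by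
  have h1 := coeff_iter_dU m 0 (coeff i (Th (C ε) n p (fun _ => eU)))
  rw [Nat.factorial_zero, Nat.cast_one, one_mul, zero_add] at h1
  rw [← h1, ← coeff_iter_ext']
  have h2 := cars dU_der (by have := dU_C 1; simpa using this) (dU_C ε) eU dU_eU n p m
    (fun _ => 0)
  simp only [pow_zero, one_mul, zero_add] at h2
  rw [h2]
  have h3 : ∀ f : ℚ⟦X⟧⟦X⟧, coeff 0 (coeff i f) = coeff i (PowerSeries.map constantCoeff f) := by
    intro f
    rw [coeff_map, coeff_zero_eq_constantCoeff_apply]
  rw [h3, map_sum, map_sum]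
  refine sum_congr rfl fun s _ => ?_
  rw [Th_map]
  have h4 : (fun i : Fin (n + 1) => PowerSeries.map (constantCoeff (R := ℚ))
      ((X : ℚ⟦X⟧⟦X⟧) ^ cnt s i * eU)) = fun i => (X : ℚ⟦X⟧) ^ cnt s i := by
    funext i
    rw [map_mul, map_eU, map_pow]
    simp
  rw [h4, Th_mono, coeff_C_mul, coeff_X_pow]
  simp

/-- the total generating function -/
lemma coeff_D_Th (ε : ℚ) (n : ℕ) (p : RecTree n) (m : ℕ) :
    (m.factorial : ℚ) * coeff m (coeff 0 (D (C ε) (Th (C ε) n p (fun _ => eU)))) =
      ∑ s : Fin m → Fin (n + 1), if arr n p (cnt s) ≤ 1 then ε ^ (n + 1 - m) else 0 := by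
  rw [coeff_D, if_pos rfl, map_add, coeff_C_mul, mul_add, mul_left_comm, coeff_Th, coeff_Th,
    mul_sum, ← sum_add_distrib]
  refine sum_congr rfl fun s _ => ?_
  have h := arr_emp n p (cnt s)
  have hs : ∑ i, cnt s i = m := by
    unfold cnt
    have := card_eq_sum_card_fiberwise (f := s) (s := univ) (t := univ) (by intro x _; simp)
    rw [← this]; simp
  rw [hs] at h
  by_cases h0 : arr n p (cnt s) = 0
  · rw [h0]
    rw [h0] at h
    have : n + 1 - m = emp n p (cnt s) + 1 := by omega
    rw [this]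
    simp
    ring
  · by_cases h1 : arr n p (cnt s) = 1
    · rw [h1]
      rw [h1] at h
      have : n + 1 - m = emp n p (cnt s) := by omega
      rw [this]
      simp
    · rw [if_neg (by omega), if_neg (by omega), if_neg (by omega)]
      simp

theorem coeff_sum_Th (ε : ℚ) (n m : ℕ) :
    (m.factorial : ℚ) * coeff m (∑ p : RecTree n,
      coeff 0 (D (C ε) (Th (C ε) n p (fun _ => eU)))) = numR n m * ε ^ (n + 1 - m) := by
  classical
  rw [map_sum, mul_sum]
  rw [sum_congr rfl (fun p _ => coeff_D_Th ε n p m)]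
  unfold numR
  rw [card_filter, ← univ_product_univ, sum_product]
  push_cast
  rw [sum_mul]
  refine sum_congr rfl fun p _ => ?_
  rw [sum_mul]
  refine sum_congr rfl fun s _ => ?_
  rw [isParking_iff, good_iff]
  split_ifs <;> simp

end R47.PK
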