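import Mathlib
import Pool.Agent.R47.PK.Cars

/-! Parking functions on recursive trees: the explicit solution (helper47). -/

set_option linter.unusedSectionVars false

namespace R47.PK
open Finset PowerSeries

section
variable {A : Type*} [CommRing A] [Algebra ℚ A] (u ε : A)

/-- `∑ (-u t)^k / (k!)^2 = J₀(2√(ut))` -/
noncomputable def serB : A⟦X⟧ :=
  PowerSeries.mk fun k => algebraMap ℚ A (((k.factorial : ℚ) ^ 2)⁻¹) * (-u) ^ k
/-- `∑ (-u t)^k / (k! (k+1)!) = J₁(2√(ut))/√(ut)` -/
noncomputable def serP : A⟦X⟧ :=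
  PowerSeries.mk fun k =>
    algebraMap ℚ A (((k.factorial : ℚ) * ((k + 1).factorial : ℚ))⁻¹) * (-u) ^ k
/-- `e^{-ε t} J₀(2√(ut))` -/
noncomputable def serZ' : A⟦X⟧ := rescale (-ε) (PowerSeries.exp A) * serB u
/-- `Z(t)/t`, where `Z(t) = ∫₀ᵗ e^{-ε s} J₀(2√(us)) ds` -/
noncomputable def serZt : A⟦X⟧ :=
  PowerSeries.mk fun k => algebraMap ℚ A ((k + 1 : ℚ)⁻¹) * coeff k (serZ' u ε)

noncomputable def serE : A⟦X⟧ := rescale ε (PowerSeries.exp A)
noncomputable def invB : A⟦X⟧ := invOfUnit (serB u) 1
noncomputable def invZ : A⟦X⟧ := serE ε * invB u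
noncomputable def serV : A⟦X⟧ := invOfUnit (serZt u ε) 1

noncomputable def dT (f : A⟦X⟧) : A⟦X⟧ := PowerSeries.derivative A f

lemma dT_der : IsDer (dT (A := A)) := by
  refine ⟨fun a b => by simp [dT], fun a b => ?_⟩
  unfold dT
  rw [Derivation.leibniz]
  simp only [smul_eq_mul]
  ring

lemma coeff_dT (f : A⟦X⟧) (k : ℕ) : coeff k (dT f) = coeff (k + 1) f * (k + 1) := by
  unfold dT
  rw [coeff_derivative]

lemma dT_C (a : A) : dT (C a) = 0 := by
  ext i; rw [coeff_dT]; simp

lemma constB : constantCoeff (serB u) = ((1 : Aˣ) : A) := by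
  rw [← coeff_zero_eq_constantCoeff_apply, serB, coeff_mk]; simp

lemma B_mul_inv : serB u * invB u = 1 := mul_invOfUnit _ _ (constB u)

lemma E_mul_neg : serE ε * rescale (-ε) (PowerSeries.exp A) = 1 := by
  unfold serE
  rw [exp_mul_exp_eq_exp_add, add_neg_cancel, rescale_zero]
  simp

lemma invZ_mul : invZ u ε * serZ' u ε = 1 := by
  unfold invZ serZ'
  calc serE ε * invB u * (rescale (-ε) (PowerSeries.exp A) * serB u)
      = (serE ε * rescale (-ε) (PowerSeries.exp A)) * (serB u * invB u) := by ring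
    _ = 1 := by rw [E_mul_neg, B_mul_inv]; ring

lemma dT_E : dT (serE ε) = C ε * serE ε := by
  ext k
  rw [coeff_dT, coeff_C_mul]
  unfold serE
  rw [coeff_rescale, coeff_rescale, coeff_exp, coeff_exp, Nat.factorial_succ]
  have h : algebraMap ℚ A (1 / ((k + 1 : ℕ) * k.factorial : ℕ)) * ((k : A) + 1) =
      algebraMap ℚ A (1 / (k.factorial : ℚ)) := by
    have : ((k : A) + 1) = algebraMap ℚ A (k + 1 : ℚ) := by simp
    rw [this, ← map_mul]
    congr 1
    have h1 : (k + 1 : ℚ) ≠ 0 := by positivity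
    have h2 : (k.factorial : ℚ) ≠ 0 := by positivity
    push_cast
    field_simp
  rw [mul_assoc, h, pow_succ]
  ring

/-- the kernel series -/
noncomputable def serN : A⟦X⟧⟦X⟧ :=
  PowerSeries.mk fun i => PowerSeries.mk fun j =>
    algebraMap ℚ A (((j.factorial : ℚ) * ((i + j).factorial : ℚ))⁻¹) * (-u) ^ (i + j)

lemma N_zero : coeff 0 (serN u) = serB u := by
  unfold serN serB
  rw [coeff_mk]
  ext j
  rw [coeff_mk, coeff_mk, zero_add, sq]

lemma N_one : coeff 1 (serN u) = -(C u * serP u) := by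
  unfold serN serP
  rw [coeff_mk]
  ext j
  rw [map_neg, coeff_C_mul, coeff_mk, coeff_mk, add_comm 1 j, pow_succ]
  ring

lemma dT_N (i : ℕ) : dT (coeff i (serN u)) = coeff (i + 1) (serN u) := by
  ext j
  rw [coeff_dT]
  unfold serN
  rw [coeff_mk, coeff_mk, coeff_mk, coeff_mk]
  have h : algebraMap ℚ A ((((j + 1).factorial : ℚ) * ((i + (j + 1)).factorial : ℚ))⁻¹) *
      ((j : A) + 1) = algebraMap ℚ A (((j.factorial : ℚ) * ((i + 1 + j).factorial : ℚ))⁻¹) := by
    have : ((j : A) + 1) = algebraMap ℚ A (j + 1 : ℚ) := by simp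
    rw [this, ← map_mul]
    congr 1
    have h1 : (j + 1 : ℚ) ≠ 0 := by positivity
    have h2 : (j.factorial : ℚ) ≠ 0 := by positivity
    have h3 : ((i + 1 + j).factorial : ℚ) ≠ 0 := by positivity
    rw [show i + (j + 1) = i + 1 + j by ring, Nat.factorial_succ j]
    push_cast
    field_simp
  rw [mul_right_comm, h, show i + (j + 1) = i + 1 + j by ring]

lemma X_dN : X * ext' dT (serN u) = serN u - C (serB u) := by
  ext i : 1
  rcases i with _ | i
  · rw [coeff_zero_X_mul, map_sub, N_zero]; simp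
  · rw [coeff_succ_X_mul, coeff_ext', dT_N, map_sub]; simp

/-- unit `B` -/
noncomputable def unitB : (A⟦X⟧)ˣ :=
  ⟨serB u, invB u, B_mul_inv u, by rw [mul_comm]; exact B_mul_inv u⟩

noncomputable def invN : A⟦X⟧⟦X⟧ := invOfUnit (serN u) (unitB u)

lemma N_mul_inv : serN u * invN u = 1 := by
  refine mul_invOfUnit _ _ ?_
  rw [← coeff_zero_eq_constantCoeff_apply, N_zero]; rfl

noncomputable def serK : A⟦X⟧⟦X⟧ := C (serE ε) * invN u

lemma K_mul_N : serK u ε * serN u = C (serE ε) := by
  unfold serK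
  rw [mul_assoc, mul_comm (invN u), N_mul_inv, mul_one]

lemma K_zero : coeff 0 (serK u ε) = invZ u ε := by
  have h := congrArg (coeff 0) (K_mul_N u ε)
  rw [coeff_mul, Nat.antidiagonal_zero, sum_singleton, N_zero, coeff_C, if_pos rfl] at h
  unfold invZ
  rw [← h]
  simp only
  rw [mul_assoc, B_mul_inv, mul_one]

lemma K_one : coeff 1 (serK u ε) = invZ u ε * (C u * serP u * invB u) := by
  have h := congrArg (coeff 1) (K_mul_N u ε)
  rw [coeff_mul, Finset.Nat.sum_antidiagonal_eq_sum_range_succ
    (fun i j => coeff i (serK u ε) * coeff j (serN u)) 1, sum_range_succ, sum_range_one,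
    coeff_C, if_neg (by norm_num)] at h
  simp only [Nat.sub_zero, Nat.sub_self] at h
  rw [K_zero, N_zero, N_one] at h
  have h2 : coeff 1 (serK u ε) * serB u = invZ u ε * (C u * serP u) := by
    linear_combination h
  calc coeff 1 (serK u ε) = coeff 1 (serK u ε) * (serB u * invB u) := by
        rw [B_mul_inv, mul_one]
    _ = (coeff 1 (serK u ε) * serB u) * invB u := by ring
    _ = _ := by rw [h2]; ring

/-- the derivation `∂ = (1/Z') d/dt` -/
noncomputable def dd (f : A⟦X⟧) : A⟦X⟧ := invZ u ε * dT f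

lemma dd_der : IsDer (dd u ε) := by
  refine ⟨fun a b => ?_, fun a b => ?_⟩
  · unfold dd; rw [dT_der.add, mul_add]
  · unfold dd; rw [dT_der.mul]; ring

lemma dd_C (a : A) : dd u ε (C a) = 0 := by
  unfold dd; rw [dT_C, mul_zero]

lemma ext'_dd (f : A⟦X⟧⟦X⟧) : ext' (dd u ε) f = C (invZ u ε) * ext' dT f := by
  ext i : 1
  rw [coeff_ext', coeff_C_mul, coeff_ext']; rfl

lemma ext'_C {R : Type*} [CommRing R] {d : R → R} (h : IsDer d) (a : R) :
    ext' d (C a) = C (d a) := by
  ext i
  rw [coeff_ext', coeff_C, coeff_C]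
  split_ifs
  · rfl
  · exact h.zero

lemma X_D {R : Type*} [CommRing R] (ε : R) (f : R⟦X⟧) :
    X * D ε f = f - C (coeff 0 f) + X * C (ε * coeff 0 f) := by
  ext i
  rcases i with _ | i
  · simp
  · rw [coeff_succ_X_mul, coeff_D]
    simp only [map_add, map_sub, coeff_succ_X_mul, coeff_C]
    simp

lemma X_cancel {R : Type*} [CommRing R] {f g : R⟦X⟧} (h : X * f = X * g) : f = g := by
  ext i
  have := congrArg (coeff (i + 1)) h
  rwa [coeff_succ_X_mul, coeff_succ_X_mul] at this

/-- the differential equation -/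
lemma K_ode : ext' (dd u ε) (serK u ε) = serK u ε * D (C ε) (serK u ε) := by
  apply X_cancel
  have hN : ext' dT (invN u) = - (invN u * invN u * ext' dT (serN u)) := by
    have h := congrArg (ext' dT) (N_mul_inv u)
    rw [ext'_mul dT_der] at h
    have h1 : ext' dT (1 : A⟦X⟧⟦X⟧) = 0 := by
      have := ext'_C dT_der (1 : A⟦X⟧)
      rw [map_one] at this
      rw [this]
      have := dT_C (1 : A)
      rw [map_one] at this
      rw [this, map_zero]
    rw [h1] at h
    have h2 := N_mul_inv u
    calc ext' dT (invN u) = (serN u * invN u) * ext' dT (invN u) := by rw [h2, one_mul]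
      _ = invN u * (serN u * ext' dT (invN u)) := by ring
      _ = invN u * (-(ext' dT (serN u) * invN u)) := by
          congr 1; linear_combination h
      _ = _ := by ring
  have hK : ext' dT (serK u ε) = C (C ε) * serK u ε -
      C (serE ε) * (invN u * invN u * ext' dT (serN u)) := by
    conv_lhs => unfold serK
    rw [ext'_mul dT_der, ext'_C dT_der, dT_E, hN, map_mul]
    unfold serK
    ring
  rw [ext'_dd, hK]
  have hX := X_dN u
  have e1 : X * (serK u ε * D (C ε) (serK u ε)) = serK u ε * (X * D (C ε) (serK u ε)) := by ring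
  rw [e1, X_D, K_zero, map_mul (C : A⟦X⟧ →+* A⟦X⟧⟦X⟧)]
  have h2 := N_mul_inv u
  have h3 : C (invZ u ε) * (invN u * C (serB u)) = serK u ε := by
    unfold serK invZ
    have : (C (invB u) : A⟦X⟧⟦X⟧) * C (serB u) = 1 := by
      rw [← map_mul, mul_comm, B_mul_inv, map_one]
    rw [map_mul]
    linear_combination (C (serE ε) * invN u) * this
  have h4 : C (serE ε) * (invN u * invN u) * (serN u - C (serB u)) =
      serK u ε - serK u ε * (invN u * C (serB u)) := by
    unfold serK
    linear_combination (C (serE ε) * invN u) * h2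
  calc X * (C (invZ u ε) * (C (C ε) * serK u ε -
        C (serE ε) * (invN u * invN u * ext' dT (serN u))))
      = C (invZ u ε) * (X * C (C ε) * serK u ε -
        C (serE ε) * (invN u * invN u) * (X * ext' dT (serN u))) := by ring
    _ = C (invZ u ε) * (X * C (C ε) * serK u ε -
        (serK u ε - serK u ε * (invN u * C (serB u)))) := by rw [hX, h4]
    _ = serK u ε * (C (invZ u ε) * (invN u * C (serB u)) - C (invZ u ε) +
        X * (C (C ε) * C (invZ u ε))) := by ring
    _ = _ := by rw [h3]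

/-- sum over recursive trees: leaf recursion -/
lemma sum_recTree {M : Type*} [AddCommMonoid M] (n : ℕ) (F : RecTree (n + 1) → M) :
    ∑ p, F p = ∑ q : RecTree n, ∑ j : Fin (n + 1),
      F (Fin.snoc (α := fun i : Fin (n + 1) => Fin (i.val + 1)) q j) := by
  rw [← (Fin.snocEquiv (fun i : Fin (n + 1) => Fin (i.val + 1))).sum_comp, Fintype.sum_prod_type,
    sum_comm]
  rfl

lemma sum_Th : ∀ n : ℕ, ∑ p : RecTree n, Th (C ε) n p (fun _ => serK u ε) =
    (ext' (dd u ε))^[n] (serK u ε)
  | 0 => by
      simp [Th]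
  | n + 1 => by
      rw [sum_recTree, Function.iterate_succ_apply', ← sum_Th n, (ext'_der (dd_der u ε)).sum]
      refine sum_congr rfl fun q _ => ?_
      rw [Th_der (dd_der u ε) (dd_C u ε ε)]
      refine sum_congr rfl fun j _ => ?_
      simp only [Th]
      have h1 : initT (Fin.snoc (α := fun i : Fin (n + 1) => Fin (i.val + 1)) q j) = q := by
        funext i
        unfold initT
        exact Fin.snoc_castSucc (α := fun i : Fin (n + 1) => Fin (i.val + 1)) j q i
      have h2 : lastPar (Fin.snoc (α := fun i : Fin (n + 1) => Fin (i.val + 1)) q j) = j := by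
        unfold lastPar
        exact Fin.snoc_last (α := fun i : Fin (n + 1) => Fin (i.val + 1)) j q
      rw [h1, h2, K_ode]

lemma iter_comm_D (n : ℕ) (f : A⟦X⟧⟦X⟧) :
    D (C ε) ((ext' (dd u ε))^[n] f) = (ext' (dd u ε))^[n] (D (C ε) f) := by
  induction n generalizing f with
  | zero => rfl
  | succ n ih =>
    rw [Function.iterate_succ_apply, Function.iterate_succ_apply, ih,
      ext'_D (dd_der u ε) (dd_C u ε ε)]

lemma coeff_zero_D_K : coeff 0 (D (C ε) (serK u ε)) =
    invZ u ε * (C u * serP u * invB u + C ε) := by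
  rw [coeff_D, if_pos rfl, K_zero, zero_add, K_one]
  ring

lemma sum_coeff (n : ℕ) : ∑ p : RecTree n, coeff 0 (D (C ε) (Th (C ε) n p (fun _ => serK u ε))) =
    (dd u ε)^[n] (invZ u ε * (C u * serP u * invB u + C ε)) := by
  rw [← coeff_zero_D_K, ← coeff_iter_ext', ← iter_comm_D, ← sum_Th, ← map_sum]
  congr 1
  have : ∀ (s : Finset (RecTree n)), D (C ε) (∑ p ∈ s, Th (C ε) n p fun _ => serK u ε) =
      ∑ p ∈ s, D (C ε) (Th (C ε) n p fun _ => serK u ε) := by
    classical
    intro s
    induction s using Finset.induction_on with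
    | empty =>
      simp only [sum_empty]
      ext i; rw [coeff_D]; simp
    | insert a s ha ih => rw [sum_insert ha, sum_insert ha, D_add, ih]
  rw [this]

/-! ### Lagrange inversion -/

lemma constZt : constantCoeff (serZt u ε) = ((1 : Aˣ) : A) := by
  rw [← coeff_zero_eq_constantCoeff_apply, serZt, coeff_mk]
  unfold serZ'
  rw [coeff_mul, Nat.antidiagonal_zero, sum_singleton, coeff_rescale, coeff_exp,
    coeff_zero_eq_constantCoeff_apply, constB]
  simp

lemma Zt_mul_V : serZt u ε * serV u ε = 1 := mul_invOfUnit _ _ (constZt u ε)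

lemma Zt_add : serZt u ε + X * dT (serZt u ε) = serZ' u ε := by
  ext k
  have h0 : ∀ k, coeff k (serZt u ε) * ((k : A) + 1) = coeff k (serZ' u ε) := by
    intro k
    unfold serZt
    rw [coeff_mk]
    have : ((k : A) + 1) = algebraMap ℚ A (k + 1 : ℚ) := by simp
    rw [this, mul_right_comm, ← map_mul, inv_mul_cancel₀ (by positivity), map_one, one_mul]
  rcases k with _ | k
  · have := h0 0
    rw [map_add, coeff_zero_X_mul]
    simpa using this
  · have := h0 (k + 1)
    rw [map_add, coeff_succ_X_mul, coeff_dT, ← this]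
    push_cast
    ring

lemma dT_pow (f : A⟦X⟧) (n : ℕ) : dT (f ^ (n + 1)) = ((n : A⟦X⟧) + 1) * f ^ n * dT f := by
  induction n with
  | zero => simp
  | succ n ih =>
    rw [pow_succ, dT_der.mul, ih]
    push_cast
    ring

lemma lagrange_step (G : A⟦X⟧) (n : ℕ) :
    coeff n (dT G * serV u ε ^ (n + 1)) =
      ((n : A) + 1) * coeff (n + 1) (G * serZ' u ε * serV u ε ^ (n + 2)) := by
  set V := serV u ε
  set Zt := serZt u ε
  have hV : Zt * V = 1 := Zt_mul_V u ε
  have hdV : dT V = - (V * V * dT Zt) := by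
    have h := congrArg dT hV
    rw [dT_der.mul] at h
    have h1 : dT (1 : A⟦X⟧) = 0 := by
      have := dT_C (1 : A)
      rwa [map_one] at this
    rw [h1] at h
    calc dT V = (Zt * V) * dT V := by rw [hV, one_mul]
      _ = V * (Zt * dT V) := by ring
      _ = V * (-(dT Zt * V)) := by congr 1; linear_combination h
      _ = _ := by ring
  have h1 : coeff n (dT (G * V ^ (n + 1))) = coeff (n + 1) (G * V ^ (n + 1)) * ((n : A) + 1) :=
    coeff_dT _ _
  rw [dT_der.mul, dT_pow, map_add] at h1
  have h2 : G * serZ' u ε * V ^ (n + 2) = G * V ^ (n + 1) - X * (G * V ^ n * dT V) := by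
    rw [← Zt_add u ε, hdV]
    have e1 : G * V ^ (n + 2) * Zt = G * V ^ (n + 1) * (Zt * V) := by ring
    calc G * (Zt + X * dT Zt) * V ^ (n + 2) = G * V ^ (n + 2) * Zt +
          X * (G * V ^ n * (V * V * dT Zt)) := by ring
      _ = _ := by rw [e1, hV]; ring
  rw [h2, map_sub, coeff_succ_X_mul]
  have h3 : coeff n (G * (((n : A⟦X⟧) + 1) * V ^ n * dT V)) =
      ((n : A) + 1) * coeff n (G * V ^ n * dT V) := by
    have : G * (((n : A⟦X⟧) + 1) * V ^ n * dT V) = C ((n : A) + 1) * (G * V ^ n * dT V) := by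
      rw [map_add, map_natCast, map_one]; ring
    rw [this, coeff_C_mul]
  rw [h3] at h1
  linear_combination h1

lemma lagrange : ∀ (n : ℕ) (G : A⟦X⟧), coeff 0 ((dd u ε)^[n] G) =
    (n.factorial : A) * coeff n (G * serZ' u ε * serV u ε ^ (n + 1))
  | 0, G => by
      have h0 : coeff 0 (serV u ε) = 1 := by
        unfold serV
        rw [coeff_zero_eq_constantCoeff_apply, constantCoeff_invOfUnit]; simp
      have h1 : coeff 0 (serZ' u ε) = 1 := by
        have := congrArg (coeff 0) (invZ_mul u ε)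
        have h2 := Zt_add u ε
        have h3 := congrArg (coeff 0) h2
        rw [map_add, coeff_zero_X_mul, add_zero] at h3
        rw [← h3, coeff_zero_eq_constantCoeff_apply, constZt]; simp
      simp only [Function.iterate_zero, id_eq, Nat.factorial_zero, Nat.cast_one, one_mul,
        zero_add, pow_one]
      rw [coeff_mul, Nat.antidiagonal_zero, sum_singleton, coeff_mul, Nat.antidiagonal_zero,
        sum_singleton, h0, h1]
      simp
  | n + 1, G => by
      rw [Function.iterate_succ_apply, lagrange n]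
      have : dd u ε G * serZ' u ε * serV u ε ^ (n + 1) = dT G * serV u ε ^ (n + 1) := by
        unfold dd
        linear_combination (dT G * serV u ε ^ (n + 1)) * invZ_mul u ε
      rw [this, lagrange_step, Nat.factorial_succ]
      push_cast
      ring

/-- the sum over recursive trees -/
theorem sum_trees (n : ℕ) :
    ∑ p : RecTree n, coeff 0 (coeff 0 (D (C ε) (Th (C ε) n p (fun _ => serK u ε)))) =
      (n.factorial : A) * coeff n ((C u * serP u * invB u + C ε) * serV u ε ^ (n + 1)) := by
  rw [← map_sum, sum_coeff, lagrange]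
  congr 2
  linear_combination ((C u * serP u * invB u + C ε) * serV u ε ^ (n + 1)) * invZ_mul u ε

end
end R47.PK
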