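import Mathlib
import Pool.Agent.R47.PK.Solve

/-! Parking functions on recursive trees: assembly (helper47). -/

set_option linter.unusedSectionVars false

namespace R47.PK
open Finset PowerSeries

section
variable {A : Type*} [CommRing A] [Algebra ℚ A] (u ε : A)

/-- the explicit value -/
noncomputable def serQ (n : ℕ) : A :=
  (n.factorial : A) * coeff n ((C u * serP u * invB u + C ε) * serV u ε ^ (n + 1))

variable {A' : Type*} [CommRing A'] [Algebra ℚ A'] (φ : A →+* A')

lemma map_algebraMap' (q : ℚ) : φ (algebraMap ℚ A q) = algebraMap ℚ A' q := by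
  have : (φ.comp (algebraMap ℚ A)) = algebraMap ℚ A' := Subsingleton.elim _ _
  rw [← this]; rfl

lemma map_serB : PowerSeries.map φ (serB u) = serB (φ u) := by
  ext k
  rw [coeff_map]
  unfold serB
  rw [coeff_mk, coeff_mk, map_mul, map_pow, map_neg, map_algebraMap' φ]

lemma map_serP : PowerSeries.map φ (serP u) = serP (φ u) := by
  ext k
  rw [coeff_map]
  unfold serP
  rw [coeff_mk, coeff_mk, map_mul, map_pow, map_neg, map_algebraMap' φ]

lemma map_serE : PowerSeries.map φ (rescale ε (PowerSeries.exp A)) =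
    rescale (φ ε) (PowerSeries.exp A') := by
  ext k
  rw [coeff_map, coeff_rescale, coeff_rescale, map_mul, map_pow, coeff_exp, coeff_exp,
    map_algebraMap' φ]

lemma map_serZ' : PowerSeries.map φ (serZ' u ε) = serZ' (φ u) (φ ε) := by
  unfold serZ'
  rw [map_mul, map_serE, map_serB, map_neg]

lemma map_serZt : PowerSeries.map φ (serZt u ε) = serZt (φ u) (φ ε) := by
  ext k
  rw [coeff_map]
  unfold serZt
  rw [coeff_mk, coeff_mk, map_mul, map_algebraMap' φ, ← map_serZ', coeff_map]

lemma inv_unique {R : Type*} [CommRing R] {a b c : R} (h1 : a * b = 1) (h2 : a * c = 1) :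
    b = c := by
  calc b = b * (a * c) := by rw [h2, mul_one]
    _ = (a * b) * c := by ring
    _ = c := by rw [h1, one_mul]

lemma map_invB : PowerSeries.map φ (invB u) = invB (φ u) := by
  apply inv_unique (a := serB (φ u))
  · rw [← map_serB, ← map_mul, B_mul_inv, map_one]
  · exact B_mul_inv _

lemma map_serV : PowerSeries.map φ (serV u ε) = serV (φ u) (φ ε) := by
  apply inv_unique (a := serZt (φ u) (φ ε))
  · rw [← map_serZt, ← map_mul, Zt_mul_V, map_one]
  · exact Zt_mul_V _ _

lemma map_serQ (n : ℕ) : φ (serQ u ε n) = serQ (φ u) (φ ε) n := by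
  unfold serQ
  rw [map_mul, map_natCast, ← coeff_map]
  congr 2
  rw [map_mul, map_add, map_mul, map_mul, map_pow, map_serP, map_invB, map_serV]
  simp only [PowerSeries.map_C]

end

lemma eU_eq : eU = rescale (X : ℚ⟦X⟧) (PowerSeries.exp ℚ⟦X⟧) := by
  unfold eU
  ext k : 1
  rw [coeff_mk, coeff_rescale, coeff_exp, mul_comm]
  congr 1
  rw [one_div]
  rfl

lemma map_serK (ε : ℚ) :
    PowerSeries.map (constantCoeff (R := ℚ⟦X⟧)) (serK (X : ℚ⟦X⟧) (C ε)) = eU := by
  have h := congrArg (PowerSeries.map (constantCoeff (R := ℚ⟦X⟧))) (K_mul_N (X : ℚ⟦X⟧) (C ε))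
  rw [map_mul, PowerSeries.map_C] at h
  have h1 : constantCoeff (serE (C ε : ℚ⟦X⟧)) = 1 := by
    unfold serE
    rw [← coeff_zero_eq_constantCoeff_apply, coeff_rescale, coeff_exp]
    simp
  rw [h1, map_one, mul_comm] at h
  refine inv_unique h ?_
  have h2 : PowerSeries.map (constantCoeff (R := ℚ⟦X⟧)) (serN (X : ℚ⟦X⟧)) =
      rescale (-X : ℚ⟦X⟧) (PowerSeries.exp ℚ⟦X⟧) := by
    ext i : 1
    rw [coeff_map, ← coeff_zero_eq_constantCoeff_apply, coeff_rescale, coeff_exp]
    unfold serN
    rw [coeff_mk, coeff_mk, mul_comm]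
    simp
  rw [h2, eU_eq, exp_mul_exp_eq_exp_add, neg_add_cancel, rescale_zero]
  simp

lemma numR_coeff (n m : ℕ) (ε : ℚ) :
    (m.factorial : ℚ) * coeff m (serQ (X : ℚ⟦X⟧) (C ε) n) = numR n m * ε ^ (n + 1 - m) := by
  rw [← coeff_sum_Th]
  unfold serQ
  rw [← sum_trees]
  congr 2
  refine sum_congr rfl fun p _ => ?_
  have h := Th_map (constantCoeff (R := ℚ⟦X⟧)) (C (C ε : ℚ⟦X⟧)) n p
    (fun _ => serK (X : ℚ⟦X⟧) (C ε))
  simp only [map_serK, constantCoeff_C] at h
  rw [← h, coeff_D, coeff_D, if_pos rfl, if_pos rfl, coeff_map, coeff_map, map_add,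
    coeff_zero_eq_constantCoeff_apply, coeff_zero_eq_constantCoeff_apply
      ((C (C ε : ℚ⟦X⟧)) * _), map_mul, constantCoeff_C]

lemma numR_zero {n m : ℕ} (h : n + 1 < m) : numR n m = 0 := by
  classical
  unfold numR
  rw [card_eq_zero, filter_eq_empty_iff]
  rintro ⟨p, s⟩ _ hp
  have := hp univ ⟨mem_univ _, fun _ _ => mem_univ _⟩
  simp at this
  omega

/-- the numbers `numR n m` determined for every `u` and `ε` -/
theorem sum_numR (n : ℕ) (u ε : ℚ) :
    ∑ m ∈ range (n + 2), (numR n m : ℚ) / m.factorial * ε ^ (n + 1 - m) * u ^ m =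
      serQ u ε n := by
  set P : Polynomial ℚ := serQ (A := Polynomial ℚ) Polynomial.X (Polynomial.C ε) n with hP
  have h1 : (P : ℚ⟦X⟧) = serQ (X : ℚ⟦X⟧) (C ε) n := by
    have := map_serQ (A := Polynomial ℚ) (Polynomial.X) (Polynomial.C ε)
      (Polynomial.coeToPowerSeries.ringHom (R := ℚ)) n
    simpa using this
  have h2 : ∀ m, P.coeff m = (numR n m : ℚ) / m.factorial * ε ^ (n + 1 - m) := by
    intro m
    have h3 := numR_coeff n m ε
    rw [← h1, Polynomial.coeff_coe] at h3
    have h4 : (m.factorial : ℚ) ≠ 0 := by positivity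
    field_simp
    rw [mul_comm, h3]
  have h3 : serQ u ε n = P.eval u := by
    have := map_serQ (A := Polynomial ℚ) (Polynomial.X) (Polynomial.C ε)
      (Polynomial.evalRingHom u) n
    simp only [Polynomial.coe_evalRingHom, Polynomial.eval_X, Polynomial.eval_C] at this
    exact this.symm
  rw [h3, Polynomial.eval_eq_sum_range' (n := n + 2)]
  · refine sum_congr rfl fun m _ => ?_
    rw [h2]
  · rw [Nat.lt_iff_add_one_le, Nat.succ_le_succ_iff] 
    refine Polynomial.natDegree_le_iff_coeff_eq_zero.mpr fun m hm => ?_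
    rw [h2, numR_zero hm]
    simp

end R47.PK
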